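import Mathlib
import Pool.Agent.N183.U9.Stm
import Pool.Agent.N183.U8.D2
import Pool.Agent.R915.F1
import Pool.Agent.Y90.Tor
import Pool.Agent.W522.U.C2

/-!
# Project RB (helper183), leaf FFT: first fundamental theorem for self-dual irreducible submodules
(helper543)
-/

set_option autoImplicit false
set_option linter.unusedSectionVars false

namespace Pool.Agent.N543.RBFFT

open Module Pool.Agent.Y90 Pool.Agent.N183.U8 Pool.Agent.N183.U9
open Pool.Agent.H204R3.SP (Kills bil2 kills_bracket IsTate)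
open Pool.Agent.H204R3.GP (HasProj)
open Pool.Agent.W522.U (Tw Du exists_reps exists_st)

variable {V : Type} [AddCommGroup V] [Module ℂ V] [FiniteDimensional ℂ V]
  {S : Set (End ℂ V)} {L : Submodule ℂ (End ℂ V)} {om : V →ₗ[ℂ] V →ₗ[ℂ] ℂ}

theorem genI (k : Ctx S L om) : GenI L := by
  intro L' h1 h2
  exact k.gen L' (fun D hD => h1 D (k.SL D hD) (k.sq D hD)) h2

theorem stab (k : Ctx S L om) (U : Submodule ℂ V) :
    (∀ g : Gam L, ∀ u ∈ U, RG L g u ∈ U) ↔ Stb L U := stable_iff (genI k) U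

/-- strongly irreducible subspaces -/
theorem si_iff (k : Ctx S L om) (U : Submodule ℂ V) :
    Pool.Agent.W522.U.SI (RG L) U ↔ IrE L U := by
  have hpot : ∀ U : Submodule ℂ V, Pool.Agent.W522.U.Pot (RG L) U ↔ Stb L U := by
    intro U
    constructor
    · rintro ⟨Δ, hΔ, h⟩
      obtain rfl := fi_top Δ hΔ
      exact (stab k U).1 fun g u hu => h g (Subgroup.mem_top g) u hu
    · intro h
      exact ⟨⊤, inferInstance, fun g _ u hu => (stab k U).2 h g u hu⟩
  unfold Pool.Agent.W522.U.SI IrE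
  simp only [hpot]

theorem inv_bil (k : Ctx S L om) (b : V →ₗ[ℂ] V →ₗ[ℂ] ℂ) :
    (∀ (g : Gam L) u v, b (RG L g u) (RG L g v) = b u v) ↔ ∀ X ∈ L, Skw b X := by
  have h := bil_iff (genI k) ⊤ ⊤ (fun _ _ _ _ => trivial) (fun _ _ _ _ => trivial) b
  constructor
  · intro h1 X hX u v
    exact h.1 (fun g u _ v _ => h1 g u v) X hX u trivial v trivial
  · intro h1 g u v
    exact h.2 (fun X hX u _ v _ => h1 X hX u v) g u trivial v trivial

theorem proj (k : Ctx S L om) : HasProj (RG L) := by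
  intro Δ hΔ U hU
  obtain rfl := fi_top Δ hΔ
  have hs : Stb L U := (stab k U).1 fun g u hu => hU g (Subgroup.mem_top g) u hu
  obtain ⟨π, h1, h2, h3⟩ := exists_pr k.SL k.cr hs
  refine ⟨π, h1, h2, fun g _ v => ?_⟩
  exact (equiv_iff (V' := V) (genI k) ⊤ (fun _ _ _ _ => trivial) π).2
    (fun X hX u _ => h3 X hX u) g v trivial

/-- forms killed by the involutions are invariant -/
theorem inv_form (k : Ctx S L om) {κ : Type} [Fintype κ] [DecidableEq κ]
    (φ : MultilinearMap ℂ (fun _ : κ => V) ℂ) (h : ∀ D ∈ S, Kills D φ) (g : Gam L) (v : κ → V) :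
    φ (fun j => RG L g (v j)) = φ v := by
  let L' : Submodule ℂ (End ℂ V) :=
    { carrier := {X | Kills X φ}
      add_mem' := fun {X Y} hX hY v => by
        have h1 := hX v
        have h2 := hY v
        simp only [LinearMap.add_apply, MultilinearMap.map_update_add, Finset.sum_add_distrib]
        rw [h1, h2, add_zero]
      zero_mem' := fun v => by
        simp only [LinearMap.zero_apply, MultilinearMap.map_update_zero, Finset.sum_const_zero]
      smul_mem' := fun c X hX v => by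
        have h1 := hX v
        simp only [LinearMap.smul_apply, MultilinearMap.map_update_smul, ← Finset.smul_sum]
        rw [h1, smul_zero] }
  have hL : L ≤ L' := k.gen L' h fun A hA B hB => kills_bracket hA hB
  exact inv_gam φ (fun D hD _ => hL hD) g v

theorem FFT : S_FFT := by
  intro V _ _ _ S L om k hself hrk F hF hpair m φ hφ
  have hSI : ∀ {U}, Pool.Agent.W522.U.SI (RG L) U ↔ IrE L U := fun {U} => si_iff k U
  have hdu : ∀ U, IrE L U → Du (RG L) (1 : Gam L →* ℂ) U U := by
    intro U hU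
    obtain ⟨b, hb, hb0⟩ := hself U hU
    refine ⟨⊤, inferInstance, b, hb0, fun g _ u hu v hv => ?_⟩
    rw [MonoidHom.one_apply, one_mul]
    exact (bil_iff (genI k) U U hU.2.1 hU.2.1 b).2 hb g u hu v hv
  have hom : ∀ (g : Gam L) u v, om (RG L g u) (RG L g v) = (1 : Gam L →* ℂ) g * om u v := by
    intro g u v
    rw [MonoidHom.one_apply, one_mul]
    exact (inv_bil k om).2 k.skw g u v
  have hnn : ∀ {D N : End ℂ V}, D * N = N → N * D = -N → N * N = 0 := by
    intro D N h1 h2
    have h3 : N * N = -(N * N) := by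
      calc N * N = N * (D * N) := by rw [h1]
        _ = -(N * N) := by rw [← mul_assoc, h2, neg_mul]
    have h4 : (2 : ℂ) • (N * N) = 0 := by
      rw [two_smul]
      nth_rewrite 1 [h3]
      rw [neg_add_cancel]
    exact (smul_eq_zero.1 h4).resolve_left two_ne_zero
  have hp := proj k
  obtain ⟨s, W, hW, hWW, hall⟩ := exists_reps hp
  obtain ⟨st, hst, hDu, hDu'⟩ := exists_st (χ := 1) hp om k.nd hom W hW hWW hall
  refine Pool.Agent.R915.forms_mem' (χ := 1) (fun Δ hΔ => fi_top Δ hΔ) om k.nd hom ?_ ?_ ?_ hp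
    W hW hWW hall st hst hDu hDu' F hF ?_ ?_ φ ?_
  · intro U hU _
    obtain ⟨D, hD, ε, hε, N, hN, h1, h2, h3⟩ := hrk U (hSI.1 hU)
    have hεε : ε * ε = 1 := by rcases hε with rfl | rfl <;> norm_num
    have hDD : (ε • D) * (ε • D) = 1 := by
      rw [smul_mul_smul_comm, hεε, k.sq D hD, one_smul]
    obtain ⟨γ, hγ⟩ := unip_mem hDD (L.smul_mem ε (k.SL D hD)) hN h1 h2
    have h4 : RG L γ - 1 = N := by rw [hγ, add_sub_cancel_left]
    refine ⟨γ, ?_, ?_⟩
    · rw [h4]
      exact hnn h1 h2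
    · rw [h4]
      exact h3
  · intro U hU h1 _
    obtain ⟨D, hD, ε, hε, N, hN, h2, h3, h4⟩ := hrk U (hSI.1 hU)
    have hir := hSI.1 hU
    have h5 : U.map N ≤ U := by
      rintro _ ⟨u, hu, rfl⟩
      exact hir.2.1 N hN u hu
    have h6 : U.map N = U := Submodule.eq_of_le_of_finrank_eq h5 (by rw [h4, h1])
    apply hir.1
    rw [eq_bot_iff]
    intro u hu
    rw [← h6] at hu
    obtain ⟨w, hw, rfl⟩ := hu
    rw [SetLike.mem_coe, ← h6] at hw
    obtain ⟨w', hw', rfl⟩ := hw
    rw [Submodule.mem_bot, ← Module.End.mul_apply, hnn h2 h3]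
    rfl
  · intro U U' hU _ _ hn
    exact absurd (hdu U (hSI.1 hU)) hn
  · intro b hb
    refine hpair b ((inv_bil k b).1 fun g u v => ?_)
    rw [hb, MonoidHom.one_apply, one_mul]
  · intro a ha _ ι _ _ f p _ ψ _
    have ha0 : ∀ i, a i = 0 := by
      intro i
      have h1 := hDu' i i (hdu (W i) (hSI.1 (hW i)))
      have h2 := ha i
      rw [← h1] at h2
      omega
    have hE : IsEmpty (Σ q : (Σ i, Fin (a i).toNat), ι q) := by
      refine ⟨fun x => ?_⟩
      obtain ⟨⟨i, q⟩, _⟩ := x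
      have h1 : (a i).toNat = 0 := by rw [ha0 i]; rfl
      exact (Fin.cast h1 q).elim0
    exact hF.unit _ ψ
  · refine ⟨⊤, inferInstance, fun g _ v => ?_⟩
    rw [MonoidHom.one_apply, one_pow, one_mul]
    exact inv_form k φ hφ g v

end Pool.Agent.N543.RBFFT
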