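import Mathlib

/-!
# EW/PCC (helper543): counting pairs in a cyclic group, statement over Mathlib
-/

set_option autoImplicit false

namespace Pool.Agent.N543.EWPCC

theorem ord_iff (p : ℕ) [Fact p.Prime] (T : Type) [Group T] [Finite T] (b : T) :
    ¬ p ∣ orderOf b ↔ b ^ (Nat.card T / p ^ (Nat.card T).factorization p) = 1 := by
  have hp : p.Prime := Fact.out
  have hn : Nat.card T ≠ 0 := Nat.card_pos.ne'
  rw [← orderOf_dvd_iff_pow_eq_one]
  constructor
  · intro h
    have h1 : orderOf b ∣ Nat.card T := orderOf_dvd_natCard b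
    rw [← Nat.ordProj_mul_ordCompl_eq_self (Nat.card T) p] at h1
    exact (Nat.Coprime.pow_right _ ((Nat.Prime.coprime_iff_not_dvd hp).2 h).symm).dvd_of_dvd_mul_left
      h1
  · intro h h2
    exact Nat.not_dvd_ordCompl hp hn (h2.trans h)

theorem card_ker (p : ℕ) [Fact p.Prime] (T : Type) [Group T] [Finite T] [hT : IsCyclic T] :
    Nat.card {b : T // b ^ (Nat.card T / p ^ (Nat.card T).factorization p) = 1} =
      Nat.card T / p ^ (Nat.card T).factorization p := by
  let _ : CommGroup T := IsCyclic.commGroup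
  have h := IsCyclic.card_powMonoidHom_ker (G := T)
    (Nat.card T / p ^ (Nat.card T).factorization p)
  rw [Nat.gcd_eq_right (Nat.ordCompl_dvd _ _)] at h
  exact h

/-- PCC over Mathlib -/
theorem pcc0 (p : ℕ) [Fact p.Prime] (A : Type) [Group A] [Finite A] (T : Subgroup A)
    (hT : IsCyclic T) :
    Nat.card T * (Nat.card T / p ^ (Nat.card T).factorization p) =
      Nat.card {a : A × A // a.1 ∈ T ∧ a.2 ∈ T ∧ ¬ p ∣ orderOf a.2} := by
  have e : {a : A × A // a.1 ∈ T ∧ a.2 ∈ T ∧ ¬ p ∣ orderOf a.2} ≃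
      T × {b : T // b ^ (Nat.card T / p ^ (Nat.card T).factorization p) = 1} :=
    { toFun := fun a => (⟨a.1.1, a.2.1⟩, ⟨⟨a.1.2, a.2.2.1⟩, by
        rw [← ord_iff p T]
        rw [Subgroup.orderOf_mk]
        exact a.2.2.2⟩)
      invFun := fun b => ⟨(b.1, b.2.1), b.1.2, b.2.1.2, by
        have h := b.2.2
        rw [← ord_iff p T, ← Subgroup.orderOf_coe] at h
        exact h⟩
      left_inv := fun a => rfl
      right_inv := fun b => rfl }
  rw [Nat.card_congr e, Nat.card_prod, card_ker p T]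

end Pool.Agent.N543.EWPCC
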