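import Pool.Agent.N20.EW.Stm
import Pool.Agent.N543.EWPCC0

/-!
# EW/PCC (helper543): counting pairs in a cyclic group
-/

set_option autoImplicit false

namespace Pool.Agent.N543.EWPCC

/-- PCC -/
theorem PCC : Pool.Agent.N20.EW.S_PCC := by
  intro p _ A _ _ T hT
  exact pcc0 p A T hT

end Pool.Agent.N543.EWPCC
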