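import Mathlib

/-! Circular isoptics: support functions and angle of sight. -/

set_option autoImplicit false

open Real Set Metric
open scoped InnerProductSpace

namespace Pool.Agent.N543.Iso

abbrev E := EuclideanSpace ℝ (Fin 2)

/-- The angle of sight of `S` at `P`. -/
noncomputable def angleOfSight (S : Set E) (P : E) : ℝ :=
  sSup {t : ℝ | ∃ a ∈ S, ∃ b ∈ S, t = EuclideanGeometry.angle a P b}

noncomputable def lin (θ : ℝ) (x : E) : ℝ := x 0 * cos θ + x 1 * sin θ
noncomputable def tau (θ : ℝ) (x : E) : ℝ := - x 0 * sin θ + x 1 * cos θ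

lemma nsq (x : E) : ‖x‖ ^ 2 = x 0 ^ 2 + x 1 ^ 2 := by
  rw [EuclideanSpace.norm_sq_eq]; simp [Fin.sum_univ_two]

lemma innr (x y : E) : ⟪x, y⟫_ℝ = x 0 * y 0 + x 1 * y 1 := by
  simp [PiLp.inner_apply, Fin.sum_univ_two]; ring

lemma lin_sub (θ : ℝ) (x y : E) : lin θ (x - y) = lin θ x - lin θ y := by
  simp [lin]; ring

lemma tau_sub (θ : ℝ) (x y : E) : tau θ (x - y) = tau θ x - tau θ y := by
  simp [tau]; ring

lemma lin_tau (θ : ℝ) (x : E) : lin θ x ^ 2 + tau θ x ^ 2 = ‖x‖ ^ 2 := by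
  rw [nsq]
  simp only [lin, tau]
  nlinarith [sin_sq_add_cos_sq θ, sq_nonneg (x 0), sq_nonneg (x 1),
    congrArg (fun t => t * (x 0 ^ 2 + x 1 ^ 2)) (sin_sq_add_cos_sq θ)]

lemma lin_add (θ β : ℝ) (x : E) : lin (θ + β) x = cos β * lin θ x + sin β * tau θ x := by
  simp only [lin, tau, cos_add, sin_add]; ring

lemma lin_sub' (θ β : ℝ) (x : E) : lin (θ - β) x = cos β * lin θ x - sin β * tau θ x := by
  simp only [lin, tau, cos_sub, sin_sub]; ring

lemma tau_add (θ β : ℝ) (x : E) : tau (θ + β) x = cos β * tau θ x - sin β * lin θ x := by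
  simp only [lin, tau, cos_add, sin_add]; ring

lemma eq_of_lin {θ β : ℝ} (hβ : sin β ≠ 0) {x y : E} (h1 : lin θ x = lin θ y)
    (h2 : lin (θ + β) x = lin (θ + β) y) : x = y := by
  have h3 : tau θ x = tau θ y := by
    rw [lin_add, lin_add, h1] at h2
    have := add_left_cancel h2
    exact mul_left_cancel₀ hβ this
  have h4 : ‖x - y‖ ^ 2 = 0 := by
    rw [← lin_tau θ, lin_sub, tau_sub, h1, h3]; ring
  have h5 : ‖x - y‖ = 0 := by
    exact pow_eq_zero_iff (two_ne_zero) |>.1 h4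
  exact sub_eq_zero.1 (norm_eq_zero.1 h5)

/-- the unit vector `-(cos θ, sin θ)` -/
noncomputable def mm (θ : ℝ) : E := !₂[-cos θ, -sin θ]

lemma inner_mm (θ : ℝ) (x : E) : ⟪x, mm θ⟫_ℝ = - lin θ x := by
  rw [innr]; simp [mm, lin]; ring

lemma norm_mm (θ : ℝ) : ‖mm θ‖ = 1 := by
  have : ‖mm θ‖ ^ 2 = 1 := by
    rw [nsq]; simp [mm]
  have h := norm_nonneg (mm θ)
  nlinarith

/-- half cone estimate -/
lemma angle_mm_le {θ β : ℝ} (hβ : β ∈ Ioo 0 π) {v : E} (hv : v ≠ 0) (h1 : lin θ v ≤ 0)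
    (h2 : lin (θ + β) v ≤ 0) :
    InnerProductGeometry.angle v (mm (θ + β / 2)) ≤ (π - β) / 2 := by
  obtain ⟨hb0, hb1⟩ := hβ
  set φ := θ + β / 2 with hφ
  have e1 : lin θ v = cos (β / 2) * lin φ v - sin (β / 2) * tau φ v := by
    rw [← lin_sub']; congr 1; rw [hφ]; ring
  have e2 : lin (θ + β) v = cos (β / 2) * lin φ v + sin (β / 2) * tau φ v := by
    rw [← lin_add]; congr 1; rw [hφ]; ring
  have hc : 0 < cos (β / 2) := cos_pos_of_mem_Ioo ⟨by linarith, by linarith⟩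
  have hs : 0 < sin (β / 2) := sin_pos_of_pos_of_lt_pi (by linarith) (by linarith)
  have hsc := sin_sq_add_cos_sq (β / 2)
  rw [e1] at h1
  rw [e2] at h2
  set p := lin φ v with hp
  set q := tau φ v with hq
  have hn : p ^ 2 + q ^ 2 = ‖v‖ ^ 2 := lin_tau φ v
  have hp0 : p ≤ 0 := by nlinarith
  -- cos² p² ≥ sin² q²
  have key : sin (β / 2) ^ 2 * q ^ 2 ≤ cos (β / 2) ^ 2 * p ^ 2 := by
    have h3 : 0 ≤ -(cos (β / 2) * p - sin (β / 2) * q) := by linarith
    have h4 : 0 ≤ -(cos (β / 2) * p + sin (β / 2) * q) := by linarith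
    have := mul_nonneg h3 h4
    nlinarith
  have key2 : (sin (β / 2) * ‖v‖) ^ 2 ≤ (-p) ^ 2 := by
    have : (sin (β / 2) * ‖v‖) ^ 2 = sin (β / 2) ^ 2 * (p ^ 2 + q ^ 2) := by rw [hn]; ring
    rw [this]
    nlinarith [congrArg (fun t => t * p ^ 2) hsc]
  have key3 : sin (β / 2) * ‖v‖ ≤ -p := by
    exact (abs_le_of_sq_le_sq' key2 (by linarith)).2
  have hv' : 0 < ‖v‖ := norm_pos_iff.2 hv
  unfold InnerProductGeometry.angle
  rw [inner_mm, norm_mm, mul_one]
  have : sin (β / 2) ≤ -p / ‖v‖ := by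
    rw [le_div_iff₀ hv']; exact key3
  have h5 := Real.arccos_le_arccos this
  have h6 : arccos (sin (β / 2)) = (π - β) / 2 := by
    rw [← Real.cos_pi_div_two_sub, Real.arccos_cos] <;> linarith
  rw [h6] at h5
  exact h5

lemma angle_le {θ β : ℝ} (hβ : β ∈ Ioo 0 π) {v w : E} (hv : v ≠ 0) (hw : w ≠ 0)
    (h1 : lin θ v ≤ 0) (h2 : lin (θ + β) v ≤ 0) (h3 : lin θ w ≤ 0) (h4 : lin (θ + β) w ≤ 0) :
    InnerProductGeometry.angle v w ≤ π - β := by
  have a1 := angle_mm_le hβ hv h1 h2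
  have a2 := angle_mm_le hβ hw h3 h4
  have a3 := InnerProductGeometry.angle_le_angle_add_angle v (mm (θ + β / 2)) w
  rw [InnerProductGeometry.angle_comm (mm (θ + β / 2)) w] at a3
  linarith

/-- the two edges of the cone -/
lemma angle_edges {θ β : ℝ} (hβ : β ∈ Ioo 0 π) {v w : E} (hv : v ≠ 0) (hw : w ≠ 0)
    (h1 : lin θ v = 0) (h2 : lin (θ + β) v ≤ 0) (h3 : lin θ w ≤ 0) (h4 : lin (θ + β) w = 0) :
    InnerProductGeometry.angle v w = π - β := by
  obtain ⟨hb0, hb1⟩ := hβ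
  have hs : 0 < sin β := sin_pos_of_pos_of_lt_pi hb0 hb1
  have hv' : 0 < ‖v‖ := norm_pos_iff.2 hv
  have hw' : 0 < ‖w‖ := norm_pos_iff.2 hw
  -- v = s τ(θ), s < 0
  have hv1 : tau θ v = -‖v‖ := by
    have e := lin_tau θ v
    rw [h1] at e
    rw [lin_add, h1] at h2
    have h5 : tau θ v ≤ 0 := by nlinarith
    have : (tau θ v - ‖v‖) * (tau θ v + ‖v‖) = 0 := by nlinarith
    rcases mul_eq_zero.1 this with h | h
    · linarith
    · linarith
  have hw1 : tau (θ + β) w = ‖w‖ := by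
    have e := lin_tau (θ + β) w
    rw [h4] at e
    have e2 : lin θ w = cos β * lin (θ + β) w - sin β * tau (θ + β) w := by
      rw [← lin_sub']; congr 1; ring
    rw [e2, h4] at h3
    have h5 : 0 ≤ tau (θ + β) w := by nlinarith
    have : (tau (θ + β) w - ‖w‖) * (tau (θ + β) w + ‖w‖) = 0 := by nlinarith
    rcases mul_eq_zero.1 this with h | h
    · linarith
    · linarith
  have e2 : lin θ w = - sin β * ‖w‖ := by
    have : lin θ w = cos β * lin (θ + β) w - sin β * tau (θ + β) w := by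
      rw [← lin_sub']; congr 1; ring
    rw [this, h4, hw1]; ring
  have e3 : tau θ w = cos β * ‖w‖ := by
    have : tau θ w = cos β * tau (θ + β) w + sin β * lin (θ + β) w := by
      have := tau_add (θ + β) (-β) w
      rw [cos_neg, sin_neg] at this
      rw [show θ = θ + β + -β by ring, this]; ring_nf
    rw [this, h4, hw1]; ring
  have ein : ⟪v, w⟫_ℝ = lin θ v * lin θ w + tau θ v * tau θ w := by
    rw [innr]
    simp only [lin, tau]
    have := sin_sq_add_cos_sq θ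
    linear_combination (-(v 0 * w 0 + v 1 * w 1)) * this
  unfold InnerProductGeometry.angle
  rw [ein, h1, hv1, e3]
  have : (0 * lin θ w + -‖v‖ * (cos β * ‖w‖)) / (‖v‖ * ‖w‖) = cos (π - β) := by
    rw [cos_pi_sub]; field_simp; ring
  rw [this, Real.arccos_cos] <;> linarith

/-- Angle of sight at the intersection of two support lines. -/
lemma angleOfSight_eq {S : Set E} {P : E} {θ β : ℝ} (hβ : β ∈ Ioo 0 π) (hP : P ∉ S)
    (h1 : ∀ x ∈ S, lin θ x ≤ lin θ P) (h2 : ∀ x ∈ S, lin (θ + β) x ≤ lin (θ + β) P)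
    {a b : E} (ha : a ∈ S) (hb : b ∈ S) (ha' : lin θ a = lin θ P)
    (hb' : lin (θ + β) b = lin (θ + β) P) : angleOfSight S P = π - β := by
  have hne : ∀ x ∈ S, x - P ≠ 0 := fun x hx h => hP (by rw [← sub_eq_zero.1 h]; exact hx)
  apply le_antisymm
  · have hnee : {t : ℝ | ∃ a ∈ S, ∃ b ∈ S, t = EuclideanGeometry.angle a P b}.Nonempty :=
      ⟨_, a, ha, b, hb, rfl⟩
    refine csSup_le hnee ?_
    rintro t ⟨x, hx, y, hy, rfl⟩
    unfold EuclideanGeometry.angle
    simp only [vsub_eq_sub]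
    apply angle_le (θ := θ) hβ (hne x hx) (hne y hy)
    · rw [lin_sub]; linarith [h1 x hx]
    · rw [lin_sub]; linarith [h2 x hx]
    · rw [lin_sub]; linarith [h1 y hy]
    · rw [lin_sub]; linarith [h2 y hy]
  · apply le_csSup
    · refine ⟨π, ?_⟩
      rintro t ⟨x, hx, y, hy, rfl⟩
      exact EuclideanGeometry.angle_le_pi _ _ _
    · refine ⟨a, ha, b, hb, ?_⟩
      unfold EuclideanGeometry.angle
      simp only [vsub_eq_sub]
      rw [angle_edges hβ (hne a ha) (hne b hb)]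
      · rw [lin_sub]; linarith
      · rw [lin_sub]; linarith [h2 a ha]
      · rw [lin_sub]; linarith [h1 b hb]
      · rw [lin_sub]; linarith

/-- support function -/
noncomputable def hS (S : Set E) (θ : ℝ) : ℝ := sSup (lin θ '' S)

lemma continuous_lin : Continuous (fun p : ℝ × E => lin p.1 p.2) := by
  unfold lin
  fun_prop

lemma continuous_lin' (θ : ℝ) : Continuous (lin θ) := by
  unfold lin
  fun_prop

lemma hS_continuous {S : Set E} (hc : IsCompact S) : Continuous (hS S) :=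
  IsCompact.continuous_sSup hc continuous_lin

lemma exists_hS {S : Set E} (hc : IsCompact S) (hne : S.Nonempty) (θ : ℝ) :
    ∃ a ∈ S, lin θ a = hS S θ := by
  have := (hc.image (continuous_lin' θ)).sSup_mem (hne.image _)
  obtain ⟨a, ha, h⟩ := this
  exact ⟨a, ha, h⟩

lemma le_hS {S : Set E} (hc : IsCompact S) (θ : ℝ) {x : E} (hx : x ∈ S) : lin θ x ≤ hS S θ :=
  le_csSup (hc.image (continuous_lin' θ)).bddAbove ⟨x, hx, rfl⟩

/-- intersection of the support lines with normals `θ` and `θ + β` -/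
noncomputable def PP (S : Set E) (β θ : ℝ) : E :=
  !₂[(hS S θ * sin (θ + β) - hS S (θ + β) * sin θ) / sin β,
    (hS S (θ + β) * cos θ - hS S θ * cos (θ + β)) / sin β]

lemma PP_continuous {S : Set E} (hc : IsCompact S) (β : ℝ) : Continuous (PP S β) := by
  have := hS_continuous hc
  unfold PP
  have h1 : Continuous fun θ => (hS S θ * sin (θ + β) - hS S (θ + β) * sin θ) / sin β := by
    fun_prop
  have h2 : Continuous fun θ => (hS S (θ + β) * cos θ - hS S θ * cos (θ + β)) / sin β := by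
    fun_prop
  refine (PiLp.continuous_toLp 2 _).comp (continuous_pi fun i => ?_)
  fin_cases i
  · exact h1
  · exact h2

lemma lin_PP (S : Set E) {β : ℝ} (hβ : sin β ≠ 0) (θ : ℝ) : lin θ (PP S β θ) = hS S θ := by
  simp only [lin, PP]
  simp
  rw [div_mul_eq_mul_div, div_mul_eq_mul_div, ← add_div, div_eq_iff hβ]
  rw [sin_add, cos_add]
  have := sin_sq_add_cos_sq θ
  linear_combination (hS S θ * sin β) * this

lemma lin_PP' (S : Set E) {β : ℝ} (hβ : sin β ≠ 0) (θ : ℝ) :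
    lin (θ + β) (PP S β θ) = hS S (θ + β) := by
  simp only [lin, PP]
  simp
  rw [div_mul_eq_mul_div, div_mul_eq_mul_div, ← add_div, div_eq_iff hβ]
  rw [sin_add, cos_add]
  have := sin_sq_add_cos_sq θ
  linear_combination (hS S (θ+β) * sin β) * this

end Pool.Agent.N543.Iso
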