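import Mathlib
import Pool.Agent.N543.Iso1

/-! Circular isoptics: main argument. -/

set_option autoImplicit false

open Real Set Metric
open scoped InnerProductSpace

namespace Pool.Agent.N543.Iso

/-- The isoptic of `S` at angle `α`. -/
def isoptic (S : Set E) (α : ℝ) : Set E := {P | P ∉ S ∧ angleOfSight S P = α}

lemma lin_interp {θ β s : ℝ} (hβ : β ∈ Ioo 0 π) (hs : s ∈ Icc 0 β) {v : E} (h1 : lin θ v ≤ 0)
    (h2 : lin (θ + β) v ≤ 0) : lin (θ + s) v ≤ 0 := by
  have hsb : 0 < sin β := sin_pos_of_pos_of_lt_pi hβ.1 hβ.2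
  have e : sin β * lin (θ + s) v = sin (β - s) * lin θ v + sin s * lin (θ + β) v := by
    rw [lin_add, lin_add, sin_sub]; ring
  have a1 : 0 ≤ sin (β - s) := sin_nonneg_of_nonneg_of_le_pi (by linarith [hs.2])
    (by linarith [hs.1, hβ.2])
  have a2 : 0 ≤ sin s := sin_nonneg_of_nonneg_of_le_pi hs.1 (by linarith [hs.2, hβ.2])
  have : sin β * lin (θ + s) v ≤ 0 := by
    rw [e]
    nlinarith
  by_contra hcon
  push Not at hcon
  nlinarith [mul_pos hsb hcon]

/-- if all corner points belong to `S`, then `S` is a point -/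
lemma subsingleton_of_PP_mem {S : Set E} (hc : IsCompact S) {β : ℝ} (hβ : β ∈ Ioo 0 π)
    (h : ∀ θ, PP S β θ ∈ S) : S.Subsingleton := by
  have hsb : 0 < sin β := sin_pos_of_pos_of_lt_pi hβ.1 hβ.2
  -- PP attains all support values between
  have key : ∀ θ, ∀ s ∈ Icc 0 β, lin (θ + s) (PP S β θ) = hS S (θ + s) := by
    intro θ s hs
    apply le_antisymm (le_hS hc _ (h θ))
    obtain ⟨a, ha, ha'⟩ := exists_hS hc ⟨_, h θ⟩ (θ + s)
    rw [← ha']
    have := lin_interp (v := a - PP S β θ) hβ hs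
      (by rw [lin_sub, lin_PP S hsb.ne']; linarith [le_hS hc θ ha])
      (by rw [lin_sub, lin_PP' S hsb.ne']; linarith [le_hS hc (θ + β) ha])
    rw [lin_sub] at this
    linarith
  have step : ∀ θ, ∀ s ∈ Icc 0 (β / 2), PP S β (θ + s) = PP S β θ := by
    intro θ s hs
    have hs2 := hs.2
    have hs1 := hs.1
    have hb := hβ.1
    have hb' := hβ.2
    apply eq_of_lin (θ := θ + s) (β := β - s)
      (sin_pos_of_pos_of_lt_pi (by linarith) (by linarith)).ne'
    · rw [lin_PP S hsb.ne', key θ s ⟨hs1, by linarith⟩]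
    · have e : θ + s + (β - s) = θ + β := by ring
      rw [e, key θ β ⟨hb.le, le_rfl⟩]
      have := key (θ + s) (β - s) ⟨by linarith, by linarith⟩
      rw [e] at this
      exact this
  have hb2 : 0 < β / 2 := by linarith [hβ.1]
  have steps : ∀ n : ℕ, ∀ θ, PP S β (θ + n * (β / 2)) = PP S β θ := by
    intro n
    induction n with
    | zero => intro θ; simp
    | succ n ih =>
      intro θ
      rw [← ih θ, ← step (θ + n * (β / 2)) (β / 2) ⟨hb2.le, le_rfl⟩]
      congr 1
      push_cast; ring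
  have all : ∀ θ, 0 ≤ θ → PP S β θ = PP S β 0 := by
    intro θ hθ
    obtain ⟨n, hn⟩ : ∃ n : ℕ, n * (β / 2) ≤ θ ∧ θ < (n + 1) * (β / 2) := by
      refine ⟨⌊θ / (β / 2)⌋₊, ?_, ?_⟩
      · rw [← le_div_iff₀ hb2]; exact Nat.floor_le (by positivity)
      · rw [← div_lt_iff₀ hb2]; exact Nat.lt_floor_add_one _
    have e : θ = n * (β / 2) + (θ - n * (β / 2)) := by ring
    rw [e, step _ _ ⟨by linarith [hn.1], by linarith [hn.2]⟩]
    have := steps n 0
    rw [zero_add] at this
    exact this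
  have hp : ∀ θ, 0 ≤ θ → hS S θ = lin θ (PP S β 0) := by
    intro θ hθ
    rw [← all θ hθ, lin_PP S hsb.ne']
  have h0 : ∀ x ∈ S, x = PP S β 0 := by
    intro x hx
    have a1 : lin 0 x ≤ lin 0 (PP S β 0) := by rw [← hp 0 le_rfl]; exact le_hS hc _ hx
    have a2 : lin (π / 2) x ≤ lin (π / 2) (PP S β 0) := by
      rw [← hp _ (by positivity)]; exact le_hS hc _ hx
    have a3 : lin π x ≤ lin π (PP S β 0) := by
      rw [← hp _ (by positivity)]; exact le_hS hc _ hx
    have a4 : lin (3 * π / 2) x ≤ lin (3 * π / 2) (PP S β 0) := by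
      rw [← hp _ (by positivity)]; exact le_hS hc _ hx
    have e3 : (3 * π / 2 : ℝ) = π + π / 2 := by ring
    have f1 : ∀ y : E, lin 0 y = y 0 := fun y => by simp [lin]
    have f2 : ∀ y : E, lin (π / 2) y = y 1 := fun y => by simp [lin]
    have f3 : ∀ y : E, lin π y = - y 0 := fun y => by simp [lin]
    have f4 : ∀ y : E, lin (3 * π / 2) y = - y 1 := fun y => by
      rw [e3, lin_add]; simp [tau]
    rw [f1, f1] at a1
    rw [f2, f2] at a2
    rw [f3, f3] at a3
    rw [f4, f4] at a4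
    ext i
    fin_cases i
    · simp only [Fin.zero_eta]; linarith
    · simp only [Fin.mk_one]; linarith
  intro x hx y hy
  rw [h0 x hx, h0 y hy]

lemma angleOfSight_subsingleton {S : Set E} (hS : S.Subsingleton) {P : E} (hP : P ∉ S) :
    angleOfSight S P = 0 := by
  unfold angleOfSight
  rcases S.eq_empty_or_nonempty with h | ⟨a, ha⟩
  · subst h; simp
  · have : {t : ℝ | ∃ a ∈ S, ∃ b ∈ S, t = EuclideanGeometry.angle a P b} = {0} := by
      ext t
      constructor
      · rintro ⟨x, hx, y, hy, rfl⟩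
        rw [hS hx hy]
        refine EuclideanGeometry.angle_self_of_ne ?_
        rintro rfl
        exact hP hy
      · rintro rfl
        refine ⟨a, ha, a, ha, ?_⟩
        refine (EuclideanGeometry.angle_self_of_ne ?_).symm
        rintro rfl
        exact hP ha
    rw [this]; simp

/-- The circle condition: all intersection points of support lines lie on the circle. -/
lemma PP_mem_sphere {S : Set E} (hc : IsCompact S) {α : ℝ} (hα : α ∈ Ioo 0 π) {c : E} {R : ℝ}
    (hR : 0 < R) (h : isoptic S α = sphere c R) :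
    S.Nonempty ∧ ∀ θ, PP S (π - α) θ ∉ S ∧ PP S (π - α) θ ∈ sphere c R := by
  obtain ⟨ha0, ha1⟩ := hα
  have hβ : π - α ∈ Ioo 0 π := ⟨by linarith, by linarith⟩
  have hsb : 0 < sin (π - α) := sin_pos_of_pos_of_lt_pi hβ.1 hβ.2
  have hsph : (sphere c R).Nonempty := NormedSpace.sphere_nonempty.2 hR.le
  have hns : ¬ S.Subsingleton := by
    intro hs
    obtain ⟨P, hP⟩ := hsph
    rw [← h] at hP
    have := hP.2
    rw [angleOfSight_subsingleton hs hP.1] at this
    linarith
  have hne : S.Nonempty := by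
    by_contra h0
    rw [not_nonempty_iff_eq_empty] at h0
    apply hns
    rw [h0]; exact subsingleton_empty
  refine ⟨hne, ?_⟩
  have dich : ∀ θ, PP S (π - α) θ ∉ S → PP S (π - α) θ ∈ sphere c R := by
    intro θ hθ
    rw [← h]
    refine ⟨hθ, ?_⟩
    obtain ⟨a, ha, ha'⟩ := exists_hS hc hne θ
    obtain ⟨b, hb, hb'⟩ := exists_hS hc hne (θ + (π - α))
    rw [angleOfSight_eq (θ := θ) (β := π - α) hβ hθ ?_ ?_ ha hb ?_ ?_]
    · ring
    · intro x hx; rw [lin_PP S hsb.ne']; exact le_hS hc _ hx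
    · intro x hx; rw [lin_PP' S hsb.ne']; exact le_hS hc _ hx
    · rw [ha', lin_PP S hsb.ne']
    · rw [hb', lin_PP' S hsb.ne']
  have hA : IsClosed {θ | PP S (π - α) θ ∈ S} := hc.isClosed.preimage (PP_continuous hc _)
  have hB : IsClosed {θ | PP S (π - α) θ ∈ sphere c R} :=
    isClosed_sphere.preimage (PP_continuous hc _)
  have hAB : {θ | PP S (π - α) θ ∈ S}ᶜ = {θ | PP S (π - α) θ ∈ sphere c R} := by
    ext θ
    constructor
    · intro hθ; exact dich θ hθ
    · intro hθ
      have : PP S (π - α) θ ∈ isoptic S α := by rw [h]; exact hθ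
      exact this.1
  have hclopen : IsClopen {θ | PP S (π - α) θ ∈ S} := by
    refine ⟨hA, ?_⟩
    rw [← isClosed_compl_iff, hAB]; exact hB
  rcases isClopen_iff.1 hclopen with h0 | h0
  · intro θ
    have : PP S (π - α) θ ∉ S := by
      intro hθ
      have : θ ∈ {θ | PP S (π - α) θ ∈ S} := hθ
      rw [h0] at this
      exact this
    exact ⟨this, dich θ this⟩
  · exfalso
    apply hns
    apply subsingleton_of_PP_mem hc hβ
    intro θ
    have : θ ∈ {θ | PP S (π - α) θ ∈ S} := by rw [h0]; trivial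
    exact this

end Pool.Agent.N543.Iso
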