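import Mathlib
import Pool.Agent.N543.Iso2

/-! Circular isoptics: functional equations for the support function. -/

set_option autoImplicit false

open Real Set Metric
open scoped InnerProductSpace

namespace Pool.Agent.N543.Iso

lemma abs_eq_of_cont_sq {f : ℝ → ℝ} (hf : Continuous f) {k : ℝ} (h : ∀ θ, f θ ^ 2 = k) :
    ∀ θ, f θ = f 0 := by
  intro θ
  by_contra hne
  have h0 := h 0
  have h1 := h θ
  have hneg : f θ = - f 0 := by
    have : (f θ - f 0) * (f θ + f 0) = 0 := by nlinarith
    rcases mul_eq_zero.1 this with h | h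
    · exact absurd (sub_eq_zero.1 h) hne
    · linarith
  have hk : k ≠ 0 := by
    rintro rfl
    have e0 : f 0 = 0 := by simpa using h0
    have e1 : f θ = 0 := by simpa using h1
    exact hne (by rw [e0, e1])
  -- intermediate value
  have : (0 : ℝ) ∈ range f := by
    have hr : IsPreconnected (range f) := isPreconnected_range hf
    have hoc := hr.ordConnected
    rcases le_total (f 0) (f θ) with h | h
    · exact hoc.out ⟨0, rfl⟩ ⟨θ, rfl⟩ ⟨by linarith, by linarith⟩
    · exact hoc.out ⟨θ, rfl⟩ ⟨0, rfl⟩ ⟨by linarith, by linarith⟩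
  obtain ⟨t, ht⟩ := this
  have := h t
  rw [ht] at this
  apply hk
  rw [← this]; ring

/-- functional equations -/
lemma func_eq {S : Set E} (hc : IsCompact S) {α : ℝ} (hα : α ∈ Ioo 0 π) {c : E} {R : ℝ}
    (hR : 0 < R) (h : isoptic S α = sphere c R) (θ : ℝ) :
    (hS S (θ + 2 * (π - α)) - lin (θ + 2 * (π - α)) c = hS S θ - lin θ c) ∧
    (hS S θ - lin θ c) ^ 2 + (hS S (θ + (π - α)) - lin (θ + (π - α)) c) ^ 2
      - 2 * cos (π - α) * (hS S θ - lin θ c) * (hS S (θ + (π - α)) - lin (θ + (π - α)) c)
      = R ^ 2 * sin (π - α) ^ 2 := by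
  obtain ⟨hne, hPP⟩ := PP_mem_sphere hc hα hR h
  obtain ⟨ha0, ha1⟩ := hα
  set β := π - α with hβdef
  have hβ : β ∈ Ioo 0 π := ⟨by linarith, by linarith⟩
  have hsb : 0 < sin β := sin_pos_of_pos_of_lt_pi hβ.1 hβ.2
  set P := PP S β θ with hP
  set Q := PP S β (θ + β) with hQ
  have lP : lin θ P = hS S θ := lin_PP S hsb.ne' θ
  have lP' : lin (θ + β) P = hS S (θ + β) := lin_PP' S hsb.ne' θ
  have lQ : lin (θ + β) Q = hS S (θ + β) := lin_PP S hsb.ne' _
  have lQ' : lin (θ + β + β) Q = hS S (θ + β + β) := lin_PP' S hsb.ne' _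
  have nP : ‖P - c‖ = R := by
    have := (hPP θ).2
    rwa [mem_sphere_iff_norm] at this
  have nQ : ‖Q - c‖ = R := by
    have := (hPP (θ + β)).2
    rwa [mem_sphere_iff_norm] at this
  have hne' : P ≠ Q := by
    intro hPQ
    obtain ⟨a, ha, ha'⟩ := exists_hS hc hne (θ + β)
    have hPn := (hPP θ).1
    apply hPn
    have e1 : lin θ (a - P) ≤ 0 := by rw [lin_sub, lP]; linarith [le_hS hc θ ha]
    have e2 : lin (θ + β) (a - P) = 0 := by rw [lin_sub, lP', ha']; ring
    have e3 : lin (θ + β + β) (a - P) ≤ 0 := by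
      rw [lin_sub, hPQ, lQ']; linarith [le_hS hc (θ + β + β) ha]
    have e4 : lin (θ + β + β) (a - P) = sin β * tau (θ + β) (a - P) := by
      rw [lin_add, e2]; ring
    have e5 : lin θ (a - P) = - (sin β * tau (θ + β) (a - P)) := by
      have : θ = θ + β - β := by ring
      rw [this, lin_sub', e2]
      have e : θ + β - β + β = θ + β := by ring
      rw [e]; ring
    have e6 : lin θ (a - P) = 0 := by
      rw [e4] at e3
      rw [e5] at e1 ⊢
      linarith
    have : a = P := by
      apply eq_of_lin (θ := θ) hsb.ne'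
      · rw [lin_sub] at e6; linarith
      · rw [lin_sub] at e2; linarith
    have h' : a = PP S β θ := this
    rw [← h']; exact ha
  -- symmetric
  have hPn : lin (θ + β) (P - c) ^ 2 + tau (θ + β) (P - c) ^ 2 = R ^ 2 := by rw [lin_tau, nP]
  have hQn : lin (θ + β) (Q - c) ^ 2 + tau (θ + β) (Q - c) ^ 2 = R ^ 2 := by rw [lin_tau, nQ]
  have hl : lin (θ + β) (P - c) = lin (θ + β) (Q - c) := by
    rw [lin_sub, lin_sub, lP', lQ]
  have ht : tau (θ + β) (P - c) = - tau (θ + β) (Q - c) := by
    have : (tau (θ + β) (P - c) - tau (θ + β) (Q - c)) * (tau (θ + β) (P - c) + tau (θ + β) (Q - c))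
        = 0 := by
      rw [hl] at hPn
      nlinarith
    rcases mul_eq_zero.1 this with h | h
    · exfalso
      apply hne'
      apply eq_of_lin (θ := θ + β) (β := π / 2) (by simp)
      · rw [lP', lQ]
      · rw [lin_add (θ + β) (π / 2) P, lin_add (θ + β) (π / 2) Q]
        simp only [cos_pi_div_two, sin_pi_div_two, zero_mul, one_mul, zero_add]
        rw [tau_sub, tau_sub] at h
        linarith
    · linarith
  have e1 : lin θ (P - c) = cos β * lin (θ + β) (P - c) - sin β * tau (θ + β) (P - c) := by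
    rw [← lin_sub']; congr 1; ring
  have e2 : lin (θ + β + β) (Q - c) = cos β * lin (θ + β) (Q - c) + sin β * tau (θ + β) (Q - c) :=
    lin_add _ _ _
  constructor
  · have e3 : θ + 2 * β = θ + β + β := by ring
    rw [e3, ← lQ', ← lP, ← lin_sub, ← lin_sub, e1, e2, ht, hl]
    ring
  · rw [← lP, ← lP', ← lin_sub, ← lin_sub, e1, ← hPn]
    have := sin_sq_add_cos_sq β
    set p := lin (θ + β) (P - c)
    set q := tau (θ + β) (P - c)
    linear_combination (-p ^ 2) * this

/-- first Fourier coefficient vanishes -/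
lemma fourier_zero {H : ℝ → ℝ} (hH : Continuous H) (h2π : ∀ θ, H (θ + 2 * π) = H θ) {β : ℝ}
    (hβ : β ∈ Ioo 0 π) (hper : ∀ θ, H (θ + 2 * β) = H θ) :
    ∫ θ in (0 : ℝ)..(2 * π), (H θ : ℂ) * Complex.exp (θ * Complex.I) = 0 := by
  set F : ℝ → ℂ := fun θ => (H θ : ℂ) * Complex.exp (θ * Complex.I) with hF
  have hFc : Continuous F := by
    rw [hF]; fun_prop
  have hFp : Function.Periodic F (2 * π) := by
    intro θ
    simp only [hF]
    rw [h2π θ]
    congr 1
    push_cast
    rw [add_mul, Complex.exp_add, Complex.exp_two_pi_mul_I, mul_one]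
  have e1 : ∫ θ in (0 : ℝ)..(2 * π), F θ = ∫ θ in (0 : ℝ)..(2 * π), F (θ + 2 * β) := by
    rw [intervalIntegral.integral_comp_add_right (fun x => F x)]
    have := hFp.intervalIntegral_add_eq 0 (0 + 2 * β)
    rw [zero_add] at this
    rw [this]
    congr 1
    ring
  have e2 : ∀ θ : ℝ, F (θ + 2 * β) = Complex.exp ((2 * β : ℝ) * Complex.I) * F θ := by
    intro θ
    simp only [hF]
    rw [hper θ]
    push_cast
    rw [add_mul, Complex.exp_add]
    ring
  have e3 : ∫ θ in (0 : ℝ)..(2 * π), F (θ + 2 * β)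
      = Complex.exp ((2 * β : ℝ) * Complex.I) * ∫ θ in (0 : ℝ)..(2 * π), F θ := by
    simp_rw [e2]
    rw [intervalIntegral.integral_const_mul]
  have e4 : (1 - Complex.exp ((2 * β : ℝ) * Complex.I)) * ∫ θ in (0 : ℝ)..(2 * π), F θ = 0 := by
    rw [sub_mul, one_mul, ← e3, ← e1, sub_self]
  rcases mul_eq_zero.1 e4 with h | h
  · exfalso
    have h5 : Complex.exp ((2 * β : ℝ) * Complex.I) = 1 := (sub_eq_zero.1 h).symm
    rw [Complex.exp_eq_one_iff] at h5
    obtain ⟨n, hn⟩ := h5
    have h6 : (2 * β : ℝ) = n * (2 * π) := by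
      have h7 : ((2 * β : ℝ) : ℂ) * Complex.I = ((n * (2 * π) : ℝ) : ℂ) * Complex.I := by
        rw [hn]; push_cast; ring
      have h8 := mul_right_cancel₀ Complex.I_ne_zero h7
      exact_mod_cast h8
    obtain ⟨hb0, hb1⟩ := hβ
    have h9 : β = n * π := by linarith
    have h10 : (0 : ℝ) < n := by
      by_contra hcon
      push Not at hcon
      nlinarith [Real.pi_pos]
    have h11 : (n : ℝ) < 1 := by
      by_contra hcon
      push Not at hcon
      nlinarith [Real.pi_pos]
    have h12 : (0 : ℤ) < n := by exact_mod_cast h10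
    have h13 : n < (1 : ℤ) := by exact_mod_cast h11
    omega
  · exact h

lemma lin_two_pi (θ : ℝ) (x : E) : lin (θ + 2 * π) x = lin θ x := by
  simp [lin]

lemma hS_two_pi (S : Set E) (θ : ℝ) : hS S (θ + 2 * π) = hS S θ := by
  unfold hS
  congr 1
  ext t
  simp only [mem_image, lin_two_pi]

/-- Fourier coefficient of a linear function -/
lemma fourier_lin (d : E) (h : ∫ θ in (0 : ℝ)..(2 * π), (lin θ d : ℂ) * Complex.exp (θ * Complex.I)
    = 0) : d = 0 := by
  have hc : ∀ d : E, Continuous fun θ => lin θ d := fun d => by unfold lin; fun_prop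
  have e : ∀ θ : ℝ, (lin θ d : ℂ) * Complex.exp (θ * Complex.I) =
      ((lin θ d * cos θ : ℝ) : ℂ) + ((lin θ d * sin θ : ℝ) : ℂ) * Complex.I := by
    intro θ
    rw [Complex.exp_mul_I]
    push_cast
    ring
  simp_rw [e] at h
  rw [intervalIntegral.integral_add, intervalIntegral.integral_mul_const,
    intervalIntegral.integral_ofReal, intervalIntegral.integral_ofReal] at h
  · have hA : ∫ θ in (0 : ℝ)..(2 * π), lin θ d * cos θ = d 0 * π := by
      have : ∀ θ, lin θ d * cos θ = d 0 * cos θ ^ 2 + d 1 * (sin θ * cos θ) := by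
        intro θ; unfold lin; ring
      simp_rw [this]
      rw [intervalIntegral.integral_add, intervalIntegral.integral_const_mul,
        intervalIntegral.integral_const_mul, integral_cos_sq, integral_sin_mul_cos₁]
      · simp
      · exact Continuous.intervalIntegrable (by fun_prop) _ _
      · exact Continuous.intervalIntegrable (by fun_prop) _ _
    have hB : ∫ θ in (0 : ℝ)..(2 * π), lin θ d * sin θ = d 1 * π := by
      have : ∀ θ, lin θ d * sin θ = d 0 * (sin θ * cos θ) + d 1 * sin θ ^ 2 := by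
        intro θ; unfold lin; ring
      simp_rw [this]
      rw [intervalIntegral.integral_add, intervalIntegral.integral_const_mul,
        intervalIntegral.integral_const_mul, integral_sin_sq, integral_sin_mul_cos₁]
      · simp
      · exact Continuous.intervalIntegrable (by fun_prop) _ _
      · exact Continuous.intervalIntegrable (by fun_prop) _ _
    rw [hA, hB] at h
    have hre := congrArg Complex.re h
    have him := congrArg Complex.im h
    simp at hre him
    have hpi := Real.pi_ne_zero
    ext i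
    fin_cases i
    · simpa [hpi] using hre
    · simpa [hpi] using him
  · have := hc d
    exact Continuous.intervalIntegrable (by fun_prop) _ _
  · have := hc d
    exact Continuous.intervalIntegrable (by fun_prop) _ _

/-- centres agree -/
lemma center_eq {S : Set E} (hc : IsCompact S) {α α' : ℝ} (hα : α ∈ Ioo 0 π) (hα' : α' ∈ Ioo 0 π)
    {c c' : E} {R R' : ℝ} (hR : 0 < R) (hR' : 0 < R')
    (h : isoptic S α = sphere c R) (h' : isoptic S α' = sphere c' R') : c = c' := by
  have hβ : π - α ∈ Ioo 0 π := ⟨by linarith [hα.2], by linarith [hα.1]⟩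
  have hβ' : π - α' ∈ Ioo 0 π := ⟨by linarith [hα'.2], by linarith [hα'.1]⟩
  have hcont := hS_continuous hc
  have hl : ∀ d : E, Continuous fun θ => lin θ d := fun d => by unfold lin; fun_prop
  have f1 := fourier_zero (H := fun θ => hS S θ - lin θ c) (hcont.sub (hl c))
    (fun θ => by simp only [hS_two_pi, lin_two_pi]) hβ (fun θ => (func_eq hc hα hR h θ).1)
  have f2 := fourier_zero (H := fun θ => hS S θ - lin θ c') (hcont.sub (hl c'))
    (fun θ => by simp only [hS_two_pi, lin_two_pi]) hβ' (fun θ => (func_eq hc hα' hR' h' θ).1)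
  have f3 : ∫ θ in (0 : ℝ)..(2 * π), (lin θ (c' - c) : ℂ) * Complex.exp (θ * Complex.I) = 0 := by
    have : ∀ θ : ℝ, (lin θ (c' - c) : ℂ) * Complex.exp (θ * Complex.I) =
        ((hS S θ - lin θ c : ℝ) : ℂ) * Complex.exp (θ * Complex.I) -
        ((hS S θ - lin θ c' : ℝ) : ℂ) * Complex.exp (θ * Complex.I) := by
      intro θ
      rw [lin_sub]; push_cast; ring
    simp_rw [this]
    rw [intervalIntegral.integral_sub]
    · rw [f1, f2, sub_zero]
    · apply Continuous.intervalIntegrable
      have := hl c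
      fun_prop
    · apply Continuous.intervalIntegrable
      have := hl c'
      fun_prop
  have := fourier_lin _ f3
  exact (sub_eq_zero.1 this).symm

end Pool.Agent.N543.Iso
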