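import Mathlib
import Pool.Agent.N543.Iso3

/-! Circular isoptics: two circular isoptics force a disk. -/

set_option autoImplicit false

open Real Set Metric
open scoped InnerProductSpace

namespace Pool.Agent.N543.Iso

/-- The group of periods of a function. -/
def periods (H : ℝ → ℝ) : AddSubgroup ℝ where
  carrier := {τ | ∀ θ, H (θ + τ) = H θ}
  zero_mem' := fun θ => by simp
  add_mem' := fun {a b} ha hb θ => by
    have := hb (θ + a)
    rw [add_assoc] at this
    rw [this, ha θ]
  neg_mem' := fun {a} ha θ => by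
    have := ha (θ + -a)
    rw [neg_add_cancel_right] at this
    exact this.symm

lemma mem_periods {H : ℝ → ℝ} {τ : ℝ} : τ ∈ periods H ↔ ∀ θ, H (θ + τ) = H θ := Iff.rfl

lemma const_of_two {H : ℝ → ℝ} (hH : Continuous H) {β β' : ℝ} (hβ : β ∈ Ioo 0 π)
    (hβ' : β' ∈ Ioo 0 π) (hne : β ≠ β') {K K' : ℝ}
    (p1 : ∀ θ, H (θ + 2 * β) = H θ) (p2 : ∀ θ, H (θ + 2 * β') = H θ)
    (e1 : ∀ θ, H θ ^ 2 + H (θ + β) ^ 2 - 2 * cos β * H θ * H (θ + β) = K)
    (e2 : ∀ θ, H θ ^ 2 + H (θ + β') ^ 2 - 2 * cos β' * H θ * H (θ + β') = K') :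
    ∀ θ, H θ = H 0 := by
  have cos_lt_one : ∀ {b : ℝ}, b ∈ Ioo 0 π → cos b < 1 := by
    intro b hb
    have := Real.cos_lt_cos_of_nonneg_of_le_pi (le_refl (0 : ℝ)) hb.2.le hb.1
    rwa [cos_zero] at this
  -- if β is a period then `H` is constant
  have half : ∀ {b k : ℝ}, b ∈ Ioo 0 π → (∀ θ, H θ ^ 2 + H (θ + b) ^ 2 - 2 * cos b * H θ * H (θ + b)
      = k) → b ∈ periods H → ∀ θ, H θ = H 0 := by
    intro b k hb e hper
    have hc := cos_lt_one hb
    apply abs_eq_of_cont_sq hH (k := k / (2 * (1 - cos b)))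
    intro θ
    have := e θ
    rw [mem_periods.1 hper θ] at this
    rw [eq_div_iff (by linarith)]
    linarith
  rcases (periods H).dense_or_cyclic with hd | ⟨a, ha⟩
  · -- dense
    have hcl : IsClosed ((periods H : AddSubgroup ℝ) : Set ℝ) := by
      have : ((periods H : AddSubgroup ℝ) : Set ℝ) = ⋂ θ, {τ | H (θ + τ) = H θ} := by
        ext τ
        simp only [SetLike.mem_coe, mem_periods, mem_iInter, mem_setOf_eq]
      rw [this]
      apply isClosed_iInter
      intro θ
      exact isClosed_eq (by fun_prop) continuous_const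
    have huniv : ((periods H : AddSubgroup ℝ) : Set ℝ) = univ := by
      rw [← hcl.closure_eq]; exact hd.closure_eq
    intro θ
    have : θ ∈ ((periods H : AddSubgroup ℝ) : Set ℝ) := by rw [huniv]; trivial
    have := mem_periods.1 this 0
    rwa [zero_add] at this
  · have m1 : 2 * β ∈ periods H := p1
    have m2 : 2 * β' ∈ periods H := p2
    have mz : ∀ n : ℤ, n * a ∈ periods H := by
      intro n
      rw [ha, AddSubgroup.mem_closure_singleton]
      exact ⟨n, by simp⟩
    have m1' := m1
    have m2' := m2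
    rw [ha, AddSubgroup.mem_closure_singleton] at m1' m2'
    obtain ⟨k, hk⟩ := m1'
    obtain ⟨l, hl⟩ := m2'
    rw [zsmul_eq_mul] at hk hl
    rcases Int.even_or_odd' k with ⟨i, hi | hi⟩
    · apply half hβ e1
      have : β = i * a := by
        rw [hi] at hk; push_cast at hk; linarith
      rw [this]; exact mz i
    rcases Int.even_or_odd' l with ⟨j, hj | hj⟩
    · apply half hβ' e2
      have : β' = j * a := by
        rw [hj] at hl; push_cast at hl; linarith
      rw [this]; exact mz j
    · -- both odd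
      have hd : β' - β ∈ periods H := by
        have : β' - β = (j - i : ℤ) * a := by
          rw [hi] at hk; rw [hj] at hl; push_cast at hk hl ⊢; linarith
        rw [this]; exact mz _
      have hg : ∀ θ, H (θ + β') = H (θ + β) := by
        intro θ
        have := mem_periods.1 hd (θ + β)
        rw [← this]; congr 1; ring
      have hcne : cos β ≠ cos β' := by
        intro h
        apply hne
        exact Real.injOn_cos ⟨hβ.1.le, hβ.2.le⟩ ⟨hβ'.1.le, hβ'.2.le⟩ h
      have hcne' : 2 * (cos β' - cos β) ≠ 0 := by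
        intro h
        apply hcne
        linarith
      -- product constant
      have hprod : ∀ θ, H θ * H (θ + β) = (K - K') / (2 * (cos β' - cos β)) := by
        intro θ
        rw [eq_div_iff hcne']
        have h1 := e1 θ
        have h2 := e2 θ
        rw [hg θ] at h2
        linarith
      set m := (K - K') / (2 * (cos β' - cos β)) with hm
      have hsum : ∀ θ, (H θ + H (θ + β)) ^ 2 = K + 2 * cos β * m + 2 * m := by
        intro θ
        have h1 := e1 θ
        have h2 := hprod θ
        rw [← h2, ← h1]; ring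
      have hdiff : ∀ θ, (H θ - H (θ + β)) ^ 2 = K + 2 * cos β * m - 2 * m := by
        intro θ
        have h1 := e1 θ
        have h2 := hprod θ
        rw [← h2, ← h1]; ring
      have c1 := abs_eq_of_cont_sq (f := fun θ => H θ + H (θ + β)) (by fun_prop) hsum
      have c2 := abs_eq_of_cont_sq (f := fun θ => H θ - H (θ + β)) (by fun_prop) hdiff
      intro θ
      have h1 := c1 θ
      have h2 := c2 θ
      simp only [zero_add] at h1 h2
      linarith

/-- constant support function relative to `c` -/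
lemma eq_closedBall {S : Set E} (hc : IsCompact S) (hconv : Convex ℝ S) (hne : S.Nonempty)
    (hns : ¬ S.Subsingleton) {c : E}
    (h : ∀ θ, hS S θ - lin θ c = hS S 0 - lin 0 c) : ∃ r : ℝ, 0 < r ∧ S = closedBall c r := by
  set r := hS S 0 - lin 0 c with hr
  have hh : ∀ θ, hS S θ = lin θ c + r := fun θ => by linarith [h θ]
  -- representation of vectors
  have polar : ∀ v : E, ∃ θ : ℝ, lin θ v = ‖v‖ ∧ ∀ w : E, ‖v‖ * lin θ w = ⟪v, w⟫_ℝ := by
    intro v
    set z : ℂ := ⟨v 0, v 1⟩ with hz
    have hzn : ‖z‖ = ‖v‖ := by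
      have h1 : ‖z‖ ^ 2 = ‖v‖ ^ 2 := by
        rw [nsq, Complex.sq_norm, Complex.normSq_apply]; simp [hz]; ring
      exact (pow_left_inj₀ (norm_nonneg _) (norm_nonneg _) two_ne_zero).1 h1
    have hcos : ‖v‖ * cos z.arg = v 0 := by
      rw [← hzn]; exact Complex.norm_mul_cos_arg z
    have hsin : ‖v‖ * sin z.arg = v 1 := by
      rw [← hzn]; exact Complex.norm_mul_sin_arg z
    have hw : ∀ w : E, ‖v‖ * lin z.arg w = ⟪v, w⟫_ℝ := by
      intro w
      rw [innr]
      unfold lin
      rw [← hcos, ← hsin]; ring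
    refine ⟨z.arg, ?_, hw⟩
    rcases eq_or_ne v 0 with h0 | h0
    · rw [h0]; simp [lin]
    · have h1 := hw v
      rw [real_inner_self_eq_norm_sq, sq] at h1
      exact mul_left_cancel₀ (norm_ne_zero_iff.2 h0) h1
  have hsub : S ⊆ closedBall c r := by
    intro x hx
    rw [mem_closedBall_iff_norm]
    obtain ⟨θ, h1, h2⟩ := polar (x - c)
    rw [← h1, lin_sub]
    have := le_hS hc θ hx
    rw [hh] at this
    linarith
  have hr0 : 0 < r := by
    by_contra hcon
    push Not at hcon
    apply hns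
    have : (closedBall c r).Subsingleton := by
      rcases hcon.lt_or_eq with h | h
      · rw [closedBall_eq_empty.2 h]; exact subsingleton_empty
      · rw [h, closedBall_zero]; exact subsingleton_singleton
    exact this.anti hsub
  refine ⟨r, hr0, Subset.antisymm hsub ?_⟩
  intro y hy
  by_contra hyS
  obtain ⟨f, t, hf1, hf2⟩ := geometric_hahn_banach_closed_point hconv hc.isClosed hyS
  -- f = inner with a vector
  set v := (InnerProductSpace.toDual ℝ E).symm f with hv
  have hfv : ∀ w, f w = ⟪v, w⟫_ℝ := by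
    intro w
    rw [hv, InnerProductSpace.toDual_symm_apply]
  obtain ⟨θ, h1, h2⟩ := polar v
  obtain ⟨a, ha, ha'⟩ := exists_hS hc hne θ
  have h3 := hf1 a ha
  rw [hfv, ← h2, ha', hh] at h3
  rw [hfv, ← h2] at hf2
  have h4 : lin θ (y - c) ≤ ‖y - c‖ := by
    have := lin_tau θ (y - c)
    have h5 : lin θ (y - c) ^ 2 ≤ ‖y - c‖ ^ 2 := by nlinarith [sq_nonneg (tau θ (y - c))]
    exact (abs_le_of_sq_le_sq' h5 (norm_nonneg _)).2
  rw [mem_closedBall_iff_norm] at hy
  rw [lin_sub] at h4
  have h6 : ‖v‖ * lin θ y ≤ ‖v‖ * (lin θ c + r) :=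
    mul_le_mul_of_nonneg_left (by linarith) (norm_nonneg _)
  linarith

/-- isoptics of discs -/
lemma isoptic_closedBall (c : E) {r : ℝ} (hr : 0 < r) {γ : ℝ} (hγ : γ ∈ Ioo 0 π) :
    isoptic (closedBall c r) γ = sphere c (r / sin (γ / 2)) := by
  obtain ⟨hg0, hg1⟩ := hγ
  have hsin : 0 < sin (γ / 2) := sin_pos_of_pos_of_lt_pi (by linarith) (by linarith)
  have polar : ∀ v : E, ∃ θ : ℝ, ∀ β, lin (θ + β) v = ‖v‖ * cos β := by
    intro v
    set z : ℂ := ⟨v 0, v 1⟩ with hz
    have hzn : ‖z‖ = ‖v‖ := by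
      have h1 : ‖z‖ ^ 2 = ‖v‖ ^ 2 := by
        rw [nsq, Complex.sq_norm, Complex.normSq_apply]; simp [hz]; ring
      exact (pow_left_inj₀ (norm_nonneg _) (norm_nonneg _) two_ne_zero).1 h1
    have hcos : ‖v‖ * cos z.arg = v 0 := by
      rw [← hzn]; exact Complex.norm_mul_cos_arg z
    have hsin : ‖v‖ * sin z.arg = v 1 := by
      rw [← hzn]; exact Complex.norm_mul_sin_arg z
    refine ⟨z.arg, fun β => ?_⟩
    rw [lin_add]
    unfold lin tau
    rw [← hcos, ← hsin]
    have := sin_sq_add_cos_sq z.arg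
    linear_combination (‖v‖ * cos β) * this
  -- angle of sight
  have key : ∀ P : E, r < ‖P - c‖ → angleOfSight (closedBall c r) P = 2 * arcsin (r / ‖P - c‖) := by
    intro P hP
    have hn : 0 < ‖P - c‖ := hr.trans hP
    set ρ := ‖P - c‖ with hρ
    have q1 : r / ρ < 1 := (div_lt_one hn).2 hP
    have q0 : 0 < r / ρ := div_pos hr hn
    set g := 2 * arcsin (r / ρ) with hg
    have g0 : 0 < g := by
      have := Real.arcsin_pos.2 q0
      linarith
    have g1 : g < π := by
      have := Real.arcsin_lt_pi_div_two.2 q1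
      linarith
    obtain ⟨φ, hφ⟩ := polar (P - c)
    have hP' : P ∉ closedBall c r := by
      rw [mem_closedBall_iff_norm]; push Not; exact hP
    have hcos : ρ * cos ((π - g) / 2) = r := by
      have : (π - g) / 2 = π / 2 - arcsin (r / ρ) := by rw [hg]; ring
      rw [this, cos_pi_div_two_sub, sin_arcsin (by linarith) q1.le]
      field_simp
    set θ := φ - (π - g) / 2 with hθ
    have l1 : lin θ P = lin θ c + r := by
      have := hφ (-((π - g) / 2))
      rw [cos_neg, hcos, lin_sub] at this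
      have e : φ + -((π - g) / 2) = θ := by rw [hθ]; ring
      rw [e] at this
      linarith
    have l2 : lin (θ + (π - g)) P = lin (θ + (π - g)) c + r := by
      have := hφ ((π - g) / 2)
      rw [hcos, lin_sub] at this
      have e : φ + (π - g) / 2 = θ + (π - g) := by rw [hθ]; ring
      rw [e] at this
      linarith
    have hle : ∀ ψ, ∀ x ∈ closedBall c r, lin ψ x ≤ lin ψ c + r := by
      intro ψ x hx
      rw [mem_closedBall_iff_norm] at hx
      have := lin_tau ψ (x - c)
      have h5 : lin ψ (x - c) ^ 2 ≤ ‖x - c‖ ^ 2 := by nlinarith [sq_nonneg (tau ψ (x - c))]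
      have := (abs_le_of_sq_le_sq' h5 (norm_nonneg _)).2
      rw [lin_sub] at this
      linarith
    have hex : ∀ ψ, ∃ x ∈ closedBall c r, lin ψ x = lin ψ c + r := by
      intro ψ
      refine ⟨c - r • mm ψ, ?_, ?_⟩
      · rw [mem_closedBall_iff_norm]
        have : c - r • mm ψ - c = - (r • mm ψ) := by abel
        rw [this, norm_neg, norm_smul, norm_mm, mul_one, Real.norm_eq_abs, abs_of_pos hr]
      · rw [lin_sub]
        have : lin ψ (r • mm ψ) = - r := by
          unfold lin mm
          simp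
          have := sin_sq_add_cos_sq ψ
          linear_combination (-r) * this
        rw [this]; ring
    obtain ⟨a, ha, ha'⟩ := hex θ
    obtain ⟨b, hb, hb'⟩ := hex (θ + (π - g))
    rw [angleOfSight_eq (θ := θ) (β := π - g) ⟨by linarith, by linarith⟩ hP' ?_ ?_ ha hb ?_ ?_]
    · ring
    · intro x hx; rw [l1]; exact hle _ x hx
    · intro x hx; rw [l2]; exact hle _ x hx
    · rw [ha', l1]
    · rw [hb', l2]
  ext P
  constructor
  · rintro ⟨h1, h2⟩
    have h1' : r < ‖P - c‖ := by
      rw [mem_closedBall_iff_norm] at h1; push Not at h1; exact h1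
    rw [key P h1'] at h2
    have hn : 0 < ‖P - c‖ := hr.trans h1'
    have q1 : r / ‖P - c‖ < 1 := (div_lt_one hn).2 h1'
    have q0 : 0 < r / ‖P - c‖ := div_pos hr hn
    have h3 : arcsin (r / ‖P - c‖) = γ / 2 := by linarith
    have h4 : r / ‖P - c‖ = sin (γ / 2) := by
      rw [← h3, sin_arcsin (by linarith) q1.le]
    rw [mem_sphere_iff_norm, ← h4]
    field_simp
  · intro h
    rw [mem_sphere_iff_norm] at h
    have hs1 : sin (γ / 2) < 1 := by
      have := Real.sin_lt_sin_of_lt_of_le_pi_div_two (x := γ / 2) (y := π / 2) (by linarith)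
        le_rfl (by linarith)
      rwa [sin_pi_div_two] at this
    have h1 : r < ‖P - c‖ := by
      rw [h, lt_div_iff₀ hsin]
      nlinarith
    refine ⟨?_, ?_⟩
    · rw [mem_closedBall_iff_norm]; push Not; exact h1
    · rw [key P h1, h]
      have : r / (r / sin (γ / 2)) = sin (γ / 2) := by field_simp
      rw [this, Real.arcsin_sin (by linarith) (by linarith)]
      ring

/-- Two circular isoptics force a disc. -/
theorem main {S : Set E} (hc : IsCompact S) (hconv : Convex ℝ S) {α α' : ℝ} (hα : α ∈ Ioo 0 π)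
    (hα' : α' ∈ Ioo 0 π) (hne : α ≠ α') {c c' : E} {R R' : ℝ} (hR : 0 < R) (hR' : 0 < R')
    (h : isoptic S α = sphere c R) (h' : isoptic S α' = sphere c' R') :
    ∃ (c : E) (r : ℝ), 0 < r ∧ S = closedBall c r := by
  have hcc := center_eq hc hα hα' hR hR' h h'
  subst hcc
  have hβ : π - α ∈ Ioo 0 π := ⟨by linarith [hα.2], by linarith [hα.1]⟩
  have hβ' : π - α' ∈ Ioo 0 π := ⟨by linarith [hα'.2], by linarith [hα'.1]⟩
  have hcont := hS_continuous hc
  have hl : Continuous fun θ => lin θ c := by unfold lin; fun_prop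
  have hconst := const_of_two (H := fun θ => hS S θ - lin θ c) (hcont.sub hl) hβ hβ'
    (fun e => hne (by linarith))
    (fun θ => (func_eq hc hα hR h θ).1) (fun θ => (func_eq hc hα' hR' h' θ).1)
    (fun θ => (func_eq hc hα hR h θ).2) (fun θ => (func_eq hc hα' hR' h' θ).2)
  obtain ⟨hne, -⟩ := PP_mem_sphere hc hα hR h
  have hns : ¬ S.Subsingleton := by
    intro hs
    obtain ⟨P, hP⟩ : (sphere c R).Nonempty := NormedSpace.sphere_nonempty.2 hR.le
    rw [← h] at hP
    have := hP.2
    rw [angleOfSight_subsingleton hs hP.1] at this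
    linarith [hα.1]
  obtain ⟨r, hr, hS⟩ := eq_closedBall hc hconv hne hns hconst
  exact ⟨c, r, hr, hS⟩

end Pool.Agent.N543.Iso
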