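import Pool.Agent.N906.KG.Nt
import Pool.Agent.N691.RS_COSET

set_option autoImplicit false
set_option linter.unusedSectionVars false

/-!
# KG/BXL: lower bound for the number of lattice points in a cube with congruences (helper543)
-/

namespace Pool.Agent.N543.KG

open NumberField IsDedekindDomain Finset Pool.Agent.H691R3 Pool.Agent.W223.AK Pool.Agent.N906.KG

section Loc

variable {K : Type} [Field K] [NumberField K]

/-- the ideal with given exponents -/
noncomputable def idl (S : Finset (Pr K)) (e : Pr K → ℕ) : Ideal (𝓞 K) := ∏ v ∈ S, v.asIdeal ^ e v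

theorem idl_ne (S : Finset (Pr K)) (e : Pr K → ℕ) : idl S e ≠ ⊥ := by
  unfold idl
  rw [← Ideal.zero_eq_bot]
  refine Finset.prod_ne_zero_iff.2 fun v _ => pow_ne_zero _ ?_
  rw [Ideal.zero_eq_bot]
  exact v.ne_bot

theorem absNorm_idl (S : Finset (Pr K)) (e : Pr K → ℕ) :
    (Ideal.absNorm (idl S e) : ℝ) = Real.exp (∑ v ∈ S, (e v : ℝ) * Real.log (Nv v)) := by
  unfold idl
  rw [map_prod, Nat.cast_prod, Real.exp_sum]
  refine Finset.prod_congr rfl fun v _ => ?_
  have h2 := two_le_Nv v
  rw [map_pow, Nat.cast_pow, Real.exp_nat_mul, Real.exp_log (by linarith)]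
  rfl

theorem mem_of_idl {S : Finset (Pr K)} {e : Pr K → ℕ} {r : 𝓞 K} (h : r ∈ idl S e) {v : Pr K}
    (hv : v ∈ S) : r ∈ v.asIdeal ^ e v := by
  have h1 : idl S e ≤ v.asIdeal ^ e v := Ideal.le_of_dvd (Finset.dvd_prod_of_mem _ hv)
  exact h1 h

/-- the Chinese remainder theorem -/
theorem crt (S : Finset (Pr K)) (a g m : Pr K → ℕ) (hc : ∀ v, m v = 0 ∨ (a v = 0 ∧ g v = 0))
    (s c : 𝓞 K) (hs : ∀ v ∈ S, s ∈ v.asIdeal ^ (min (a v) (g v))) :
    ∃ t : 𝓞 K, ∀ v ∈ S, ∀ x : 𝓞 K, x - t ∈ v.asIdeal ^ (max (a v) (g v) + m v) →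
      x ∈ v.asIdeal ^ a v ∧ x + s ∈ v.asIdeal ^ g v ∧ x - c ∈ v.asIdeal ^ m v := by
  classical
  obtain ⟨t, ht⟩ := IsDedekindDomain.exists_forall_sub_mem_ideal (s := S)
    (fun v : Pr K => v.asIdeal) (fun v => max (a v) (g v) + m v) (fun v _ => v.prime)
    (fun v _ w _ hvw h => hvw (HeightOneSpectrum.ext h))
    (fun v => if m v ≠ 0 then c else if a v ≤ g v then -s else 0)
  refine ⟨t, fun v hv x hx => ?_⟩
  have h1 := Ideal.add_mem _ hx (ht v hv)
  rw [sub_add_sub_cancel] at h1
  dsimp only at h1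
  by_cases hm : m v = 0
  · rw [if_neg (by simpa using hm), hm, add_zero] at h1
    have h3 : x - c ∈ v.asIdeal ^ m v := by
      rw [hm, pow_zero, Ideal.one_eq_top]
      trivial
    have hs' := hs v hv
    by_cases hag : a v ≤ g v
    · rw [if_pos hag, sub_neg_eq_add, max_eq_right hag] at h1
      rw [min_eq_left hag] at hs'
      refine ⟨?_, h1, h3⟩
      have h4 := Ideal.sub_mem _ (Ideal.pow_le_pow_right hag h1) hs'
      rwa [add_sub_cancel_right] at h4
    · push Not at hag
      rw [if_neg (not_le.mpr hag), sub_zero, max_eq_left hag.le] at h1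
      rw [min_eq_right hag.le] at hs'
      exact ⟨h1, Ideal.add_mem _ (Ideal.pow_le_pow_right hag.le h1) hs', h3⟩
  · obtain ⟨h5, h6⟩ := (hc v).resolve_left hm
    rw [if_pos hm, h5, h6, max_self, zero_add] at h1
    rw [h5, h6, pow_zero, Ideal.one_eq_top]
    exact ⟨trivial, trivial, h1⟩

theorem step {c₀ R : ℝ} (hco : ∀ (𝔞 : Ideal (𝓞 K)) (t : 𝓞 K), 𝔞 ≠ ⊥ →
      (Ideal.absNorm 𝔞 : ℝ) ≤ c₀ * R ^ Module.finrank ℚ K →
      ∃ F : Finset (𝓞 K), (∀ a ∈ F, a - t ∈ 𝔞 ∧ ∀ w : InfinitePlace K, R / 2 ≤ w a ∧ w a ≤ R) ∧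
        c₀ * (R ^ Module.finrank ℚ K / Ideal.absNorm 𝔞) ≤ F.card)
    (S : Finset (Pr K)) (a g m : Pr K → ℕ) (hc : ∀ v, m v = 0 ∨ (a v = 0 ∧ g v = 0))
    (s c : 𝓞 K) (hs : ∀ v ∈ S, s ∈ v.asIdeal ^ (min (a v) (g v))) (L : ℝ)
    (hL : ∑ v ∈ S, ((max (a v) (g v) + m v : ℕ) : ℝ) * Real.log (Nv v) = L)
    (hN : Real.exp L ≤ c₀ * R ^ Module.finrank ℚ K) :
    ∃ F : Finset (𝓞 K), (∀ x ∈ F, (∀ v ∈ S,
        x ∈ v.asIdeal ^ a v ∧ x + s ∈ v.asIdeal ^ g v ∧ x - c ∈ v.asIdeal ^ m v) ∧
        ∀ w : InfinitePlace K, R / 2 ≤ w (x : K) ∧ w (x : K) ≤ R) ∧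
      c₀ * R ^ Module.finrank ℚ K * Real.exp (-L) ≤ F.card := by
  obtain ⟨t, ht⟩ := crt S a g m hc s c hs
  have hnorm := absNorm_idl S (fun v => max (a v) (g v) + m v)
  rw [hL] at hnorm
  obtain ⟨F, h1, h2⟩ := hco (idl S fun v => max (a v) (g v) + m v) t (idl_ne _ _)
    (by rw [hnorm]; exact hN)
  refine ⟨F, fun x hx => ⟨fun v hv => ht v hv x (mem_of_idl (h1 x hx).1 hv), (h1 x hx).2⟩, ?_⟩
  rw [hnorm] at h2
  rw [Real.exp_neg]
  calc c₀ * R ^ Module.finrank ℚ K * (Real.exp L)⁻¹
      = c₀ * (R ^ Module.finrank ℚ K / Real.exp L) := by ring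
    _ ≤ _ := h2

end Loc

section Gcd

variable {K : Type} [Field K] [NumberField K] {N : ℕ}

/-- the exponents of the greatest common divisor of the ideals not yet used -/
noncomputable def G (D : Fin (N + 1) → Idl K) (j : ℕ) (v : Pr K) : ℕ :=
  ⨅ i : {i : Fin (N + 1) // i = 0 ∨ j < i.val}, D i v

lemma G_le (D : Fin (N + 1) → Idl K) (j : ℕ) (v : Pr K) (i : Fin (N + 1)) (hi : i = 0 ∨ j < i.val) :
    G D j v ≤ D i v :=
  ciInf_le (OrderBot.bddBelow _) (⟨i, hi⟩ : {i : Fin (N + 1) // i = 0 ∨ j < i.val})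

lemma le_G (D : Fin (N + 1) → Idl K) (j : ℕ) (v : Pr K) (b : ℕ)
    (h : ∀ i : Fin (N + 1), (i = 0 ∨ j < i.val) → b ≤ D i v) : b ≤ G D j v := by
  have : Nonempty {i : Fin (N + 1) // i = 0 ∨ j < i.val} := ⟨⟨0, Or.inl rfl⟩⟩
  exact le_ciInf fun i => h i.1 i.2

lemma G_zero_of (D : Fin (N + 1) → Idl K) (j : ℕ) (v : Pr K) (h : D 0 v = 0) : G D j v = 0 := by
  have := G_le D j v 0 (Or.inl rfl)
  omega

lemma G_start (D : Fin (N + 1) → Idl K) (v : Pr K) (h : ∃ i, D i v = 0) : G D 0 v = 0 := by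
  obtain ⟨i, hi⟩ := h
  have := G_le D 0 v i (by
    by_cases h0 : i = 0
    · exact Or.inl h0
    · exact Or.inr (Fin.pos_iff_ne_zero.mpr h0))
  omega

lemma min_le_G (D : Fin (N + 1) → Idl K) (j : Fin N) (v : Pr K) :
    min (D j.succ v) (G D (j + 1) v) ≤ G D j v := by
  refine le_G D j v _ fun i hi => ?_
  by_cases h : i = j.succ
  · rw [h]
    exact min_le_left _ _
  · refine (min_le_right _ _).trans (G_le D _ v i ?_)
    rcases hi with hi | hi
    · exact Or.inl hi
    · right
      have : i.val ≠ j.val + 1 := fun h' => h (Fin.ext (by rw [h', Fin.val_succ]))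
      omega

lemma rot_cast (j : Fin N) : finRotate (N + 1) j.castSucc = j.succ := finRotate_of_lt j.2

lemma rot_iff (j : Fin N) (i : Fin (N + 1)) :
    j.castSucc < i ↔ (finRotate (N + 1) i = 0 ∨ j.val + 1 < (finRotate (N + 1) i).val) := by
  rcases Fin.eq_castSucc_or_eq_last i with ⟨k, rfl⟩ | rfl
  · rw [rot_cast, Fin.castSucc_lt_castSucc_iff, Fin.val_succ]
    constructor
    · intro h
      right
      exact Nat.succ_lt_succ h
    · rintro (h | h)
      · exact absurd h (Fin.succ_ne_zero k)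
      · exact Fin.lt_def.mpr (by omega)
  · rw [finRotate_last]
    exact ⟨fun _ => Or.inl rfl, fun _ => Fin.castSucc_lt_last j⟩

lemma inf_eq (D : Fin (N + 1) → Idl K) (j : Fin N) (v : Pr K) :
    (⨅ i : {i : Fin (N + 1) // j.castSucc < i}, D (finRotate (N + 1) i) v) = G D (j + 1) v := by
  apply le_antisymm
  · refine le_G D _ v _ fun i hi => ?_
    have h1 : j.castSucc < (finRotate (N + 1)).symm i := by
      rw [rot_iff, Equiv.apply_symm_apply]
      exact hi
    have h2 := ciInf_le (f := fun i : {i : Fin (N + 1) // j.castSucc < i} =>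
      D (finRotate (N + 1) i) v) (OrderBot.bddBelow _) ⟨_, h1⟩
    rw [Equiv.apply_symm_apply] at h2
    exact h2
  · have : Nonempty {i : Fin (N + 1) // j.castSucc < i} := ⟨⟨Fin.last N, Fin.castSucc_lt_last j⟩⟩
    exact le_ciInf fun i => G_le D _ v _ ((rot_iff j i.1).mp i.2)

lemma lj_eq (D : Fin (N + 1) → Idl K) (j : Fin N) : lj D (finRotate (N + 1)) j =
    ∑ v ∈ sp D, ((max (D j.succ v) (G D (j + 1) v) : ℕ) : ℝ) * Real.log (Nv v) := by
  unfold lj
  refine sum_congr rfl fun v _ => ?_
  rw [inf_eq, rot_cast]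

lemma log_nonneg (v : Pr K) : 0 ≤ Real.log (Nv v) := (log_Nv_pos v).le

lemma lj_nonneg (D : Fin (N + 1) → Idl K) (j : Fin N) : 0 ≤ lj D (finRotate (N + 1)) j := by
  rw [lj_eq]
  exact sum_nonneg fun v _ => mul_nonneg (Nat.cast_nonneg _) (log_nonneg v)

lemma notMem_sp {D : Fin (N + 1) → Idl K} {v : Pr K} (h : v ∉ sp D) (k : Fin (N + 1)) : D k v = 0 := by
  classical
  by_contra hne
  apply h
  unfold sp
  rw [mem_biUnion]
  exact ⟨k, mem_univ k, Finsupp.mem_support_iff.mpr hne⟩

open Classical in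
lemma L_eq (D : Fin (N + 1) → Idl K) (m : Idl K) (j : Fin N) :
    ∑ v ∈ sp D ∪ m.support, ((max (D j.succ v) (G D (j + 1) v) + m v : ℕ) : ℝ) * Real.log (Nv v) =
      lj D (finRotate (N + 1)) j + len m := by
  rw [lj_eq]
  have h1 : ∑ v ∈ sp D, ((max (D j.succ v) (G D (j + 1) v) : ℕ) : ℝ) * Real.log (Nv v) =
      ∑ v ∈ sp D ∪ m.support, ((max (D j.succ v) (G D (j + 1) v) : ℕ) : ℝ) * Real.log (Nv v) := by
    refine sum_subset subset_union_left fun v _ hv => ?_
    rw [notMem_sp hv, G_zero_of D _ v (notMem_sp hv 0)]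
    simp
  have h2 : len m = ∑ v ∈ sp D ∪ m.support, (m v : ℝ) * Real.log (Nv v) := by
    unfold len
    refine sum_subset subset_union_right fun v _ hv => ?_
    rw [Finsupp.notMem_support_iff.mp hv]
    simp
  rw [h1, h2, ← sum_add_distrib]
  refine sum_congr rfl fun v _ => ?_
  push_cast
  ring

lemma sum_update {A : Type} [AddCommMonoid A] (x : Fin (N + 1) → A) (k : Fin (N + 1)) (t : A)
    (hk : x k = 0) : ∑ i, Function.update x k t i = t + ∑ i, x i := by
  rw [Fintype.sum_eq_add_sum_compl k, Fintype.sum_eq_add_sum_compl k x, hk, zero_add,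
    Function.update_self]
  congr 1
  refine sum_congr rfl fun i hi => ?_
  rw [mem_compl, mem_singleton] at hi
  rw [Function.update_of_ne hi]

end Gcd

section Main

variable (K : Type) [Field K] [NumberField K]

theorem bxl (h2 : S_TEL K) : S_BXL K := by
  classical
  intro N hN2
  obtain ⟨c₀, hc₀, hco⟩ := Pool.Agent.N691.RS.coset K
  refine ⟨min c₀ (c₀ ^ N), lt_min hc₀ (pow_pos hc₀ N), ?_⟩
  intro R D m c hR hD hm hcs hle
  set d := Module.finrank ℚ K with hd
  set S : Finset (Pr K) := sp D ∪ m.support with hS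
  have hRd : 0 < R ^ d := pow_pos (by linarith) d
  have htel := (h2 N (finRotate (N + 1)) (by omega)).2 D hD
  set L : ℕ → ℝ := fun i => if h : i < N then lj D (finRotate (N + 1)) ⟨i, h⟩ + len m else 0 with hL
  have hLj : ∀ j : Fin N, L j = lj D (finRotate (N + 1)) j + len m := fun j => by
    rw [hL]
    dsimp only
    rw [dif_pos j.2]
  have hmG : ∀ (j : Fin N) (v : Pr K), m v = 0 ∨ (D j.succ v = 0 ∧ G D (j + 1) v = 0) := by
    intro j v
    rcases hm v with h | h
    · exact Or.inl h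
    · exact Or.inr ⟨h _, G_zero_of D _ v (h 0)⟩
  have key : ∀ j : ℕ, j ≤ N → ∃ F : Finset (Fin (N + 1) → 𝓞 K),
      (∀ x ∈ F, (∀ k : Fin (N + 1), (k = 0 ∨ j < k.val) → x k = 0) ∧
        (∀ k : Fin (N + 1), k ≠ 0 → k.val ≤ j →
          (∀ v ∈ S, x k ∈ v.asIdeal ^ (D k v) ∧ x k - c k ∈ v.asIdeal ^ (m v)) ∧
          ∀ w : InfinitePlace K, R / 2 ≤ w (x k : K) ∧ w (x k : K) ≤ R) ∧
        ∀ v ∈ S, ∑ k, x k ∈ v.asIdeal ^ (G D j v)) ∧
      (c₀ * R ^ d) ^ j * Real.exp (-∑ i ∈ range j, L i) ≤ F.card := by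
    intro j
    induction j with
    | zero =>
      intro _
      refine ⟨{0}, fun x hx => ?_, by simp⟩
      rw [mem_singleton] at hx
      subst hx
      refine ⟨fun k _ => rfl, fun k hk hk0 => ?_, fun v _ => ?_⟩
      · exact absurd (Fin.ext (Nat.le_zero.mp hk0)) hk
      · simp
    | succ j ih =>
      intro hj
      obtain ⟨F, hF, hcard⟩ := ih (by omega)
      have hjN : j < N := by omega
      set jj : Fin N := ⟨j, hjN⟩ with hjj
      set k : Fin (N + 1) := jj.succ with hk
      have hkv : k.val = j + 1 := by rw [hk, Fin.val_succ]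
      have hk0 : k ≠ 0 := Fin.succ_ne_zero jj
      have hbound : Real.exp (L j) ≤ c₀ * R ^ d := by
        have h3 := hLj jj
        have h4 : lj D (finRotate (N + 1)) jj ≤ tl D := by
          rw [← htel]
          exact single_le_sum (f := fun j => lj D (finRotate (N + 1)) j)
            (fun i _ => lj_nonneg D i) (mem_univ jj)
        have h5 : L j ≤ tl D + len m := by
          have : L j = L (jj : ℕ) := rfl
          rw [this, h3]
          linarith
        refine (Real.exp_le_exp.mpr h5).trans (hle.trans ?_)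
        exact mul_le_mul_of_nonneg_right (min_le_left _ _) hRd.le
      have hstep : ∀ x ∈ F, ∃ T : Finset (𝓞 K), (∀ t ∈ T, (∀ v ∈ S,
          t ∈ v.asIdeal ^ D k v ∧ t + ∑ i, x i ∈ v.asIdeal ^ G D (j + 1) v ∧
            t - c k ∈ v.asIdeal ^ m v) ∧
          ∀ w : InfinitePlace K, R / 2 ≤ w (t : K) ∧ w (t : K) ≤ R) ∧
        c₀ * R ^ d * Real.exp (-L j) ≤ T.card := by
        intro x hx
        refine step (fun 𝔞 t h h' => hco R 𝔞 t hR h h') S (fun v => D k v) (fun v => G D (j + 1) v)
          (fun v => m v) (fun v => hmG jj v) (∑ i, x i) (c k) (fun v hv => ?_) (L j) ?_ hbound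
        · exact Ideal.pow_le_pow_right (min_le_G D jj v) ((hF x hx).2.2 v hv)
        · rw [← show L (jj : ℕ) = L j from rfl, hLj jj]
          exact L_eq D m jj
      choose! T hT hTc using hstep
      refine ⟨(F.sigma T).image fun p => Function.update p.1 k p.2, ?_, ?_⟩
      · intro y hy
        rw [mem_image] at hy
        obtain ⟨⟨x, t⟩, hxt, rfl⟩ := hy
        rw [mem_sigma] at hxt
        obtain ⟨hx, ht⟩ := hxt
        dsimp only at hx ht ⊢
        obtain ⟨a1, a2, a3⟩ := hF x hx
        obtain ⟨b1, b2⟩ := hT x hx t ht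
        have hxk : x k = 0 := a1 k (Or.inr (by omega))
        refine ⟨fun i hi => ?_, fun i hi0 hi => ?_, fun v hv => ?_⟩
        · have hik : i ≠ k := by
            rintro rfl
            rcases hi with h | h
            · exact hk0 h
            · omega
          rw [Function.update_of_ne hik]
          exact a1 i (hi.imp id fun h => by omega)
        · by_cases hik : i = k
          · subst hik
            rw [Function.update_self]
            exact ⟨fun v hv => ⟨(b1 v hv).1, (b1 v hv).2.2⟩, b2⟩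
          · rw [Function.update_of_ne hik]
            refine a2 i hi0 ?_
            have : i.val ≠ j + 1 := fun h => hik (Fin.ext (by rw [h, hkv]))
            omega
        · rw [sum_update x k t hxk]
          exact (b1 v hv).2.1
      · have hinj : Set.InjOn (fun p : (_ : Fin (N + 1) → 𝓞 K) × 𝓞 K => Function.update p.1 k p.2)
            (F.sigma T : Set ((_ : Fin (N + 1) → 𝓞 K) × 𝓞 K)) := by
          rintro ⟨x, t⟩ hxt ⟨y, u⟩ hyu h
          rw [mem_coe, mem_sigma] at hxt hyu
          dsimp only at h hxt hyu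
          have hx0 : x k = 0 := (hF x hxt.1).1 k (Or.inr (by omega))
          have hy0 : y k = 0 := (hF y hyu.1).1 k (Or.inr (by omega))
          have h1 : t = u := by
            have := congrFun h k
            rwa [Function.update_self, Function.update_self] at this
          have h2 : x = y := by
            funext i
            by_cases hi : i = k
            · rw [hi, hx0, hy0]
            · have := congrFun h i
              rwa [Function.update_of_ne hi, Function.update_of_ne hi] at this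
          subst h1 h2
          rfl
        rw [card_image_of_injOn hinj, card_sigma]
        push_cast
        have h6 : (F.card : ℝ) * (c₀ * R ^ d * Real.exp (-L j)) ≤ ∑ x ∈ F, ((T x).card : ℝ) := by
          rw [← nsmul_eq_mul, ← sum_const]
          exact sum_le_sum fun x hx => hTc x hx
        refine le_trans ?_ h6
        rw [sum_range_succ, neg_add, Real.exp_add, pow_succ]
        have h7 : 0 ≤ c₀ * R ^ d * Real.exp (-L j) := by positivity
        calc (c₀ * R ^ d) ^ j * (c₀ * R ^ d) * (Real.exp (-∑ i ∈ range j, L i) * Real.exp (-L j))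
            = ((c₀ * R ^ d) ^ j * Real.exp (-∑ i ∈ range j, L i)) *
              (c₀ * R ^ d * Real.exp (-L j)) := by ring
          _ ≤ _ := mul_le_mul_of_nonneg_right hcard h7
  obtain ⟨F, hF, hcard⟩ := key N le_rfl
  have hS1 : ∀ v : Pr K, v ∉ S → (∀ k, D k v = 0) ∧ m v = 0 := by
    intro v hv
    rw [hS, mem_union, not_or] at hv
    exact ⟨fun k => notMem_sp hv.1 k, Finsupp.notMem_support_iff.mp hv.2⟩
  refine ⟨F.image fun x => Function.update x 0 (-∑ k, x k), ?_, ?_⟩
  · intro y hy
    rw [mem_image] at hy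
    obtain ⟨x, hx, rfl⟩ := hy
    obtain ⟨a1, a2, a3⟩ := hF x hx
    have hx0 : x 0 = 0 := a1 0 (Or.inl rfl)
    refine ⟨by rw [sum_update x 0 _ hx0, neg_add_cancel], ?_, ?_, ?_⟩
    · intro k v
      rw [fv_le_pow_iff]
      by_cases hv : v ∈ S
      · by_cases hk : k = 0
        · subst hk
          rw [Function.update_self]
          refine Ideal.neg_mem_iff _ |>.mpr ?_
          refine Ideal.pow_le_pow_right ?_ (a3 v hv)
          refine le_G D N v _ fun i hi => ?_
          rcases hi with rfl | hi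
          · exact le_rfl
          · exact absurd i.2 (by omega)
        · rw [Function.update_of_ne hk]
          exact ((a2 k hk (by omega)).1 v hv).1
      · rw [(hS1 v hv).1 k, pow_zero, Ideal.one_eq_top]
        trivial
    · intro k v
      have hcast : ((Function.update x 0 (-∑ k, x k) k : 𝓞 K) : K) - (c k : K) =
          ((Function.update x 0 (-∑ k, x k) k - c k : 𝓞 K) : K) :=
        (map_sub (algebraMap (𝓞 K) K) _ _).symm
      rw [hcast, fv_le_pow_iff]
      by_cases hv : v ∈ S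
      · by_cases hk : k = 0
        · subst hk
          rw [Function.update_self]
          have h3 : -∑ k, x k - c 0 = -∑ k ∈ ({0} : Finset (Fin (N + 1)))ᶜ, (x k - c k) := by
            rw [Fintype.sum_eq_add_sum_compl 0] at hcs
            rw [Fintype.sum_eq_add_sum_compl 0 x, hx0, sum_sub_distrib]
            linear_combination -hcs
          rw [h3]
          refine Ideal.neg_mem_iff _ |>.mpr (Ideal.sum_mem _ fun i hi => ?_)
          rw [mem_compl, mem_singleton] at hi
          exact ((a2 i hi (by omega)).1 v hv).2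
        · rw [Function.update_of_ne hk]
          exact ((a2 k hk (by omega)).1 v hv).2
      · rw [(hS1 v hv).2, pow_zero, Ideal.one_eq_top]
        trivial
    · intro k hk w
      rw [Function.update_of_ne hk]
      exact (a2 k hk (by omega)).2 w
  · have hinj : Set.InjOn (fun x : Fin (N + 1) → 𝓞 K => Function.update x 0 (-∑ k, x k))
        (F : Set (Fin (N + 1) → 𝓞 K)) := by
      intro x hx y hy h
      have hx0 : x 0 = 0 := (hF x hx).1 0 (Or.inl rfl)
      have hy0 : y 0 = 0 := (hF y hy).1 0 (Or.inl rfl)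
      funext i
      by_cases hi : i = 0
      · rw [hi, hx0, hy0]
      · have := congrFun h i
        dsimp only at this
        rwa [Function.update_of_ne hi, Function.update_of_ne hi] at this
    rw [card_image_of_injOn hinj]
    refine le_trans ?_ hcard
    have hsum : ∑ i ∈ range N, L i = tl D + N * len m := by
      rw [← Fin.sum_univ_eq_sum_range, sum_congr rfl fun j _ => hLj j, sum_add_distrib, htel]
      simp
    rw [hsum]
    have hexp : Real.exp (N * (d * Real.log R) - tl D - N * len m) =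
        (R ^ d) ^ N * Real.exp (-(tl D + N * len m)) := by
      have hR0 : 0 < R := by linarith
      have : (R ^ d) ^ N = Real.exp (N * (d * Real.log R)) := by
        rw [Real.exp_nat_mul, Real.exp_nat_mul, Real.exp_log hR0]
      rw [this, ← Real.exp_add]
      congr 1
      ring
    rw [hexp, mul_pow, mul_assoc]
    exact mul_le_mul_of_nonneg_right (min_le_right _ _) (by positivity)

end Main

end Pool.Agent.N543.KG
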