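import Pool.Agent.N906.NT.Stm

set_option autoImplicit false

/-! Counting with congruences. -/

namespace Pool.Agent.N543.NT

open Finset
open Pool.Agent.N906.NT (S_SEQ pr)

/-- a finite set of integers of absolute value at most `B` in one class modulo `m` -/
lemma card_class {S : Finset ℤ} {B : ℝ} {m : ℕ} (hB : 0 ≤ B) (hm : 1 ≤ m) (h1 : ∀ t ∈ S, |(t : ℝ)| ≤ B)
    (h2 : ∀ t ∈ S, ∀ t' ∈ S, (m : ℤ) ∣ t - t') : (S.card : ℝ) ≤ 2 * B / m + 1 := by
  have hm0 : (0:ℝ) < m := by exact_mod_cast hm
  rcases S.eq_empty_or_nonempty with h0 | h0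
  · subst h0
    rw [card_empty, Nat.cast_zero]; positivity
  · obtain ⟨t0, ht0, hmin⟩ := S.exists_min_image id h0
    have hc : S.card ≤ (range (⌊2 * B / m⌋₊ + 1)).card := by
      refine card_le_card_of_injOn (fun t => ((t - t0) / m).toNat) ?_ ?_
      · intro t ht
        have ht' : t ∈ S := ht
        have h3 : t0 ≤ t := hmin t ht'
        rw [mem_coe, mem_range, Nat.lt_succ_iff, Nat.le_floor_iff (by positivity)]
        obtain ⟨q, hq⟩ := h2 t ht' t0 ht0
        have hm1 : (0:ℤ) < m := by exact_mod_cast hm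
        have hq0 : 0 ≤ q := by
          by_contra hcon
          push Not at hcon
          have : (m:ℤ) * q < 0 := mul_neg_of_pos_of_neg hm1 hcon
          omega
        have e : ((t - t0) / m).toNat = q.toNat := by
          rw [hq, Int.mul_ediv_cancel_left _ hm1.ne']
        show (((t - t0) / m).toNat : ℝ) ≤ 2 * B / m
        rw [e, le_div_iff₀ hm0]
        have h4 : ((q.toNat : ℕ) : ℝ) = (q : ℝ) := by
          have : ((q.toNat : ℕ) : ℤ) = q := Int.toNat_of_nonneg hq0
          exact_mod_cast this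
        rw [h4]
        have h5 : (q : ℝ) * m = t - t0 := by
          have : (q * m : ℤ) = t - t0 := by rw [hq]; ring
          exact_mod_cast this
        rw [h5]
        have h6 := abs_le.mp (h1 t ht')
        have h7 := abs_le.mp (h1 t0 ht0)
        linarith
      · intro t ht t' ht' hh
        have hm1 : (0:ℤ) < m := by exact_mod_cast hm
        obtain ⟨q, hq⟩ := h2 t ht t0 ht0
        obtain ⟨q', hq'⟩ := h2 t' ht' t0 ht0
        have h3 : t0 ≤ t := hmin t ht
        have h3' : t0 ≤ t' := hmin t' ht'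
        have hq0 : 0 ≤ q := by
          by_contra hcon
          push Not at hcon
          have : (m:ℤ) * q < 0 := mul_neg_of_pos_of_neg hm1 hcon
          omega
        have hq0' : 0 ≤ q' := by
          by_contra hcon
          push Not at hcon
          have : (m:ℤ) * q' < 0 := mul_neg_of_pos_of_neg hm1 hcon
          omega
        have hh' : ((t - t0) / m).toNat = ((t' - t0) / m).toNat := hh
        rw [hq, hq', Int.mul_ediv_cancel_left _ hm1.ne', Int.mul_ediv_cancel_left _ hm1.ne'] at hh'
        have : q = q' := by omega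
        rw [this] at hq
        omega
    rw [card_range] at hc
    have h3 : (S.card : ℝ) ≤ (⌊2 * B / m⌋₊ : ℝ) + 1 := by exact_mod_cast hc
    have h4 := Nat.floor_le (by positivity : 0 ≤ 2 * B / m)
    linarith

/-- the greatest common divisor -/
def g {n : ℕ} (D : Fin n → ℕ) (l : Fin n) (K : Finset (Fin n)) : ℕ := Nat.gcd (K.gcd D) (D l)

lemma g_dvd {n : ℕ} {D : Fin n → ℕ} {l : Fin n} {K : Finset (Fin n)} {k : Fin n} (hk : k ∈ K) : g D l K ∣ D k :=
  (Nat.gcd_dvd_left _ _).trans (Finset.gcd_dvd hk)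

lemma g_dvd_l {n : ℕ} (D : Fin n → ℕ) (l : Fin n) (K : Finset (Fin n)) : g D l K ∣ D l := Nat.gcd_dvd_right _ _

lemma g_insert {n : ℕ} (D : Fin n → ℕ) (l a : Fin n) (K : Finset (Fin n)) :
    g D l (insert a K) = Nat.gcd (D a) (g D l K) := by
  unfold g
  rw [Finset.gcd_insert, gcd_eq_nat_gcd, Nat.gcd_assoc]

lemma main_count {n : ℕ} (D : Fin n → ℕ) (l : Fin n) (B : Fin n → ℝ) (hD : ∀ i, 1 ≤ D i)
    (K : Finset (Fin n)) (hB : ∀ k ∈ K, 0 ≤ B k) :
    ∃ m : Fin n → ℕ, (∀ k ∈ K, 1 ≤ m k) ∧ (∏ k ∈ K, m k) * g D l K = (∏ k ∈ K, D k) * D l ∧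
      ∀ (s : ℤ) (F : Finset (Fin n → ℤ)), (∀ x ∈ F, (∀ i, i ∉ K → x i = 0) ∧
        (∀ k ∈ K, (D k : ℤ) ∣ x k ∧ |(x k : ℝ)| ≤ B k) ∧ (D l : ℤ) ∣ s + ∑ k ∈ K, x k) →
        (F.card : ℝ) ≤ ∏ k ∈ K, (2 * B k / m k + 1) := by
  classical
  induction K using Finset.induction_on with
  | empty =>
    refine ⟨fun _ => 1, fun k hk => absurd hk (notMem_empty k), ?_, ?_⟩
    · unfold g
      simp
    · intro s F hF
      rw [prod_empty]
      have : F.card ≤ 1 := by
        rw [card_le_one]
        intro x hx y hy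
        funext i
        rw [(hF x hx).1 i (notMem_empty i), (hF y hy).1 i (notMem_empty i)]
      exact_mod_cast this
  | insert a K ha ih =>
    obtain ⟨m, hm1, hm2, hm3⟩ := ih fun k hk => hB k (mem_insert_of_mem hk)
    set M := Nat.lcm (D a) (g D l K) with hM
    have hg0 : 0 < g D l K := Nat.pos_of_dvd_of_pos (g_dvd_l D l K) (hD l)
    have hM0 : 0 < M := Nat.lcm_pos (hD a) hg0
    have hne : ∀ k ∈ K, k ≠ a := fun k hk h => ha (h ▸ hk)
    refine ⟨Function.update m a M, ?_, ?_, ?_⟩
    · intro k hk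
      rcases mem_insert.mp hk with h | h
      · subst h
        rw [Function.update_self]; exact hM0
      · rw [Function.update_of_ne (hne k h)]; exact hm1 k h
    · rw [prod_insert ha, prod_insert ha, Function.update_self]
      have e : ∏ k ∈ K, Function.update m a M k = ∏ k ∈ K, m k :=
        prod_congr rfl fun k hk => Function.update_of_ne (hne k hk) _ _
      rw [e, g_insert]
      have e2 : Nat.gcd (D a) (g D l K) * M = D a * g D l K := Nat.gcd_mul_lcm _ _
      calc (M * ∏ k ∈ K, m k) * Nat.gcd (D a) (g D l K) = (Nat.gcd (D a) (g D l K) * M) * ∏ k ∈ K, m k := by ring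
        _ = D a * ((∏ k ∈ K, m k) * g D l K) := by rw [e2]; ring
        _ = (D a * ∏ k ∈ K, D k) * D l := by rw [hm2]; ring
    · intro s F hF
      rw [prod_insert ha, Function.update_self]
      have e : ∏ k ∈ K, (2 * B k / (Function.update m a M k : ℕ) + 1) = ∏ k ∈ K, (2 * B k / m k + 1) :=
        prod_congr rfl fun k hk => by rw [Function.update_of_ne (hne k hk)]
      rw [e]
      set Q := ∏ k ∈ K, (2 * B k / m k + 1) with hQ
      have hQ0 : 0 ≤ Q := prod_nonneg fun k hk => by
        have := hB k (mem_insert_of_mem hk)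
        positivity
      -- the fibres
      have hfib : ∀ t ∈ F.image (fun x => x a), (F.filter (fun x => x a = t)).card ≤ ⌊Q⌋₊ := by
        intro t _
        rw [Nat.le_floor_iff hQ0]
        have hinj : Set.InjOn (fun x : Fin n → ℤ => Function.update x a 0) (F.filter (fun x => x a = t) : Set _) := by
          intro x hx y hy hxy
          have hx' := (mem_filter.mp (mem_coe.mp hx)).2
          have hy' := (mem_filter.mp (mem_coe.mp hy)).2
          funext i
          by_cases hi : i = a
          · rw [hi, hx', hy']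
          · have h := congrFun hxy i
            simp only [Function.update_of_ne hi] at h
            exact h
        rw [← card_image_of_injOn hinj]
        refine hm3 (s + t) _ ?_
        intro y hy
        rw [mem_image] at hy
        obtain ⟨x, hx, rfl⟩ := hy
        rw [mem_filter] at hx
        obtain ⟨hx1, hx2⟩ := hx
        obtain ⟨f1, f2, f3⟩ := hF x hx1
        refine ⟨?_, ?_, ?_⟩
        · intro i hi
          by_cases hia : i = a
          · rw [hia, Function.update_self]
          · rw [Function.update_of_ne hia]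
            exact f1 i (by rw [mem_insert]; tauto)
        · intro k hk
          rw [Function.update_of_ne (hne k hk)]
          exact f2 k (mem_insert_of_mem hk)
        · have e3 : ∑ k ∈ K, Function.update x a 0 k = ∑ k ∈ K, x k :=
            sum_congr rfl fun k hk => Function.update_of_ne (hne k hk) _ _
          rw [e3]
          rw [sum_insert ha, hx2] at f3
          rw [add_assoc]; exact f3
      have h1 := card_le_mul_card_image F ⌊Q⌋₊ hfib
      have h2 : ((F.image fun x => x a).card : ℝ) ≤ 2 * B a / M + 1 := by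
        refine card_class (hB a (mem_insert_self a K)) hM0 ?_ ?_
        · intro t ht
          rw [mem_image] at ht
          obtain ⟨x, hx, rfl⟩ := ht
          exact ((hF x hx).2.1 a (mem_insert_self a K)).2
        · have hcl : ∀ x ∈ F, (D a : ℤ) ∣ x a ∧ ((g D l K : ℕ) : ℤ) ∣ s + x a := by
            intro x hx
            obtain ⟨f1, f2, f3⟩ := hF x hx
            refine ⟨(f2 a (mem_insert_self a K)).1, ?_⟩
            rw [sum_insert ha] at f3
            have h4 : ((g D l K : ℕ) : ℤ) ∣ s + (x a + ∑ k ∈ K, x k) :=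
              (Int.natCast_dvd_natCast.mpr (g_dvd_l D l K)).trans f3
            have h5 : ((g D l K : ℕ) : ℤ) ∣ ∑ k ∈ K, x k := dvd_sum fun k hk =>
              (Int.natCast_dvd_natCast.mpr (g_dvd hk)).trans (f2 k (mem_insert_of_mem hk)).1
            have h6 := dvd_sub h4 h5
            have e6 : s + (x a + ∑ k ∈ K, x k) - ∑ k ∈ K, x k = s + x a := by ring
            rwa [e6] at h6
          intro t ht t' ht'
          rw [mem_image] at ht ht'
          obtain ⟨x, hx, rfl⟩ := ht
          obtain ⟨x', hx', rfl⟩ := ht'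
          obtain ⟨a1, a2⟩ := hcl x hx
          obtain ⟨b1, b2⟩ := hcl x' hx'
          have c1 := dvd_sub a1 b1
          have c2 := dvd_sub a2 b2
          have e7 : s + x a - (s + x' a) = x a - x' a := by ring
          rw [e7] at c2
          have c3 : D a ∣ (x a - x' a).natAbs := Int.natCast_dvd.mp c1
          have c4 : g D l K ∣ (x a - x' a).natAbs := Int.natCast_dvd.mp c2
          exact Int.natCast_dvd.mpr (Nat.lcm_dvd c3 c4)
      have h3 : (F.card : ℝ) ≤ (⌊Q⌋₊ : ℝ) * ((F.image fun x => x a).card : ℝ) := by exact_mod_cast h1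
      have h4 := Nat.floor_le hQ0
      calc (F.card : ℝ) ≤ (⌊Q⌋₊ : ℝ) * ((F.image fun x => x a).card : ℝ) := h3
        _ ≤ Q * (2 * B a / M + 1) := mul_le_mul h4 h2 (by positivity) hQ0
        _ = _ := by ring

lemma prod_bd {ι : Type} [DecidableEq ι] (K : Finset ι) (m : ι → ℕ) (B : ι → ℝ) {β : ℝ} (hβ : 1 ≤ β)
    (hm : ∀ k ∈ K, 1 ≤ m k) (hB : ∀ k ∈ K, β ≤ B k) :
    ∏ k ∈ K, (2 * B k / m k + 1) ≤ 3 ^ K.card * (∏ k ∈ K, B k) * (1 / ((∏ k ∈ K, m k : ℕ) : ℝ) + 1 / β) := by
  have hB1 : ∀ k ∈ K, 1 ≤ B k := fun k hk => hβ.trans (hB k hk)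
  have hm0 : ∀ k ∈ K, (1:ℝ) ≤ m k := fun k hk => by exact_mod_cast hm k hk
  have hPB : 0 ≤ ∏ k ∈ K, B k := prod_nonneg fun k hk => by linarith [hB1 k hk]
  have hPm : (0:ℝ) < ((∏ k ∈ K, m k : ℕ) : ℝ) := by
    push_cast
    exact prod_pos fun k hk => by linarith [hm0 k hk]
  by_cases hall : ∀ k ∈ K, (m k : ℝ) ≤ B k
  · have h1 : ∏ k ∈ K, (2 * B k / m k + 1) ≤ ∏ k ∈ K, (3 * (B k / m k)) := by
      refine prod_le_prod (fun k hk => ?_) fun k hk => ?_
      · have := hB1 k hk
        have := hm0 k hk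
        positivity
      · have h2 := hm0 k hk
        have h3 : 1 ≤ B k / m k := by
          rw [le_div_iff₀ (by linarith)]; linarith [hall k hk]
        have e : 2 * B k / (m k : ℝ) = 2 * (B k / m k) := by ring
        rw [e]; linarith
    rw [prod_mul_distrib, prod_const, prod_div_distrib] at h1
    refine h1.trans ?_
    have e : (∏ k ∈ K, (m k : ℝ)) = ((∏ k ∈ K, m k : ℕ) : ℝ) := by push_cast; rfl
    rw [e]
    have h2 : 0 ≤ 3 ^ K.card * (∏ k ∈ K, B k) * (1 / β) := by positivity
    calc (3:ℝ) ^ K.card * ((∏ k ∈ K, B k) / ((∏ k ∈ K, m k : ℕ) : ℝ)) =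
        3 ^ K.card * (∏ k ∈ K, B k) * (1 / ((∏ k ∈ K, m k : ℕ) : ℝ)) := by ring
      _ ≤ _ := by rw [mul_add]; linarith
  · push Not at hall
    obtain ⟨a, ha, hma⟩ := hall
    have hBa := hB a ha
    have h1 : ∏ k ∈ K.erase a, (2 * B k / m k + 1) ≤ ∏ k ∈ K.erase a, (3 * B k) := by
      refine prod_le_prod (fun k hk => ?_) fun k hk => ?_
      · have := hB1 k (mem_of_mem_erase hk)
        have := hm0 k (mem_of_mem_erase hk)
        positivity
      · have h2 := hm0 k (mem_of_mem_erase hk)
        have h3 := hB1 k (mem_of_mem_erase hk)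
        have h4 : 2 * B k / m k ≤ 2 * B k := div_le_self (by linarith) h2
        linarith
    have h2 : 2 * B a / m a + 1 ≤ 3 * (B a / β) := by
      have h3 : 2 * B a / (m a : ℝ) ≤ 2 := by
        rw [div_le_iff₀ (by linarith [hm0 a ha])]; linarith
      have h4 : 1 ≤ B a / β := by rw [le_div_iff₀ (by linarith)]; linarith
      linarith
    rw [← mul_prod_erase K _ ha]
    have h5 : (0:ℝ) ≤ ∏ k ∈ K.erase a, (2 * B k / m k + 1) := prod_nonneg fun k hk => by
      have := hB1 k (mem_of_mem_erase hk)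
      have := hm0 k (mem_of_mem_erase hk)
      positivity
    have h6 : (0:ℝ) ≤ 3 * (B a / β) := by
      have := hB1 a ha
      positivity
    calc (2 * B a / m a + 1) * ∏ k ∈ K.erase a, (2 * B k / m k + 1) ≤
        (3 * (B a / β)) * ∏ k ∈ K.erase a, (3 * B k) := mul_le_mul h2 h1 h5 h6
      _ = (∏ k ∈ K, (3 * B k)) * (1 / β) := by
        rw [← mul_prod_erase K (fun k => 3 * B k) ha]; ring
      _ = 3 ^ K.card * (∏ k ∈ K, B k) * (1 / β) := by rw [prod_mul_distrib, prod_const]
      _ ≤ _ := by
        have h7 : 0 ≤ 3 ^ K.card * (∏ k ∈ K, B k) * (1 / ((∏ k ∈ K, m k : ℕ) : ℝ)) := by positivity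
        rw [mul_add]; linarith

theorem seq : S_SEQ := by
  classical
  intro n hn
  refine ⟨3 ^ n, by positivity, ?_⟩
  intro D l B β hD hcop hβ hB hpr F hF
  obtain ⟨m, hm1, hm2, hm3⟩ := main_count D l B hD (univ.erase l) (fun k hk => by
    linarith [hB k (ne_of_mem_erase hk)])
  have hg : g D l (univ.erase l) = 1 := by
    by_contra hne
    obtain ⟨p, hp, hpd⟩ := Nat.exists_prime_and_dvd hne
    obtain ⟨i, hi⟩ := hcop p hp
    apply hi
    by_cases hil : i = l
    · subst hil
      exact hpd.trans (g_dvd_l _ _ _)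
    · exact hpd.trans (g_dvd (mem_erase.mpr ⟨hil, mem_univ i⟩))
  rw [hg, mul_one, prod_erase_mul _ _ (mem_univ l)] at hm2
  have hinj : Set.InjOn (fun x : Fin n → ℤ => Function.update x l 0) (F : Set _) := by
    intro x hx y hy hxy
    have hk : ∀ i, i ≠ l → x i = y i := by
      intro i hi
      have h := congrFun hxy i
      simp only [Function.update_of_ne hi] at h
      exact h
    funext i
    by_cases hi : i = l
    · have sx := (hF x hx).1
      have sy := (hF y hy).1
      rw [← add_sum_erase univ _ (mem_univ l)] at sx sy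
      have : ∑ k ∈ univ.erase l, x k = ∑ k ∈ univ.erase l, y k :=
        sum_congr rfl fun k hk' => hk k (ne_of_mem_erase hk')
      rw [hi]; linarith
    · exact hk i hi
  have h1 := hm3 0 (F.image fun x => Function.update x l 0) (by
    intro y hy
    rw [mem_image] at hy
    obtain ⟨x, hx, rfl⟩ := hy
    obtain ⟨f1, f2, f3⟩ := hF x hx
    refine ⟨?_, ?_, ?_⟩
    · intro i hi
      have : i = l := by
        by_contra hne
        exact hi (mem_erase.mpr ⟨hne, mem_univ i⟩)
      rw [this, Function.update_self]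
    · intro k hk
      rw [Function.update_of_ne (ne_of_mem_erase hk)]
      exact ⟨f2 k, f3 k (ne_of_mem_erase hk)⟩
    · have e : ∑ k ∈ univ.erase l, Function.update x l 0 k = ∑ k ∈ univ.erase l, x k :=
        sum_congr rfl fun k hk => Function.update_of_ne (ne_of_mem_erase hk) _ _
      rw [e, zero_add]
      rw [← add_sum_erase univ _ (mem_univ l)] at f1
      have : ∑ k ∈ univ.erase l, x k = - x l := by linarith
      rw [this, dvd_neg]
      exact f2 l)
  rw [card_image_of_injOn hinj] at h1
  have h2 := prod_bd (univ.erase l) m B hβ hm1 (fun k hk => hB k (ne_of_mem_erase hk))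
  rw [hm2] at h2
  refine (h1.trans h2).trans ?_
  have h3 : (3:ℝ) ^ (univ.erase l).card ≤ 3 ^ n := by
    refine pow_le_pow_right₀ (by norm_num) ?_
    have := card_le_card (erase_subset l (univ : Finset (Fin n)))
    rwa [card_univ, Fintype.card_fin] at this
  have h4 : 0 ≤ ∏ k ∈ univ.erase l, B k := prod_nonneg fun k hk => by
    linarith [hB k (ne_of_mem_erase hk)]
  have h5 : 0 ≤ 1 / ((∏ k, D k : ℕ) : ℝ) + 1 / β := by positivity
  exact mul_le_mul_of_nonneg_right (mul_le_mul_of_nonneg_right h3 h4) h5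

end Pool.Agent.N543.NT
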